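import Mathlib

/-!
Approximation of measurable functions on an infinite product by functions that depend on
finitely many coordinates through a finite measurable partition of the label space.
-/

set_option linter.unusedSectionVars false

namespace MPdc4ce7

open MeasureTheory Set

section Approx

variable {G I : Type*} [MeasurableSpace I] (P : Measure (G → I)) [IsProbabilityMeasure P]

/-- Sets approximable by finitely determined sets. -/
def Approx (A : Set (G → I)) : Prop :=
  MeasurableSet A ∧ ∀ κ : ENNReal, 0 < κ → ∃ (K : Type) (_ : Fintype K) (b : I → K)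
    (F : Finset G) (S : Set (G → K)), (∀ k, MeasurableSet (b ⁻¹' {k})) ∧
      (∀ β β' : G → K, (∀ u ∈ F, β u = β' u) → β ∈ S → β' ∈ S) ∧
      P (symmDiff A {ω | (fun u => b (ω u)) ∈ S}) ≤ κ

variable {P}

lemma Approx.compl {A : Set (G → I)} (hA : Approx P A) : Approx P Aᶜ := by
  refine ⟨hA.1.compl, fun κ hκ => ?_⟩
  obtain ⟨K, _, b, F, S, hb, hF, hS⟩ := hA.2 κ hκ
  refine ⟨K, inferInstance, b, F, Sᶜ, hb, ?_, ?_⟩
  · intro β β' h hβ hβ'
    exact hβ (hF β' β (fun u hu => (h u hu).symm) hβ')
  · have : symmDiff Aᶜ {ω | (fun u => b (ω u)) ∈ Sᶜ} =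
        symmDiff A {ω | (fun u => b (ω u)) ∈ S} := by
      ext ω
      simp only [Set.mem_symmDiff, Set.mem_compl_iff, Set.mem_ofPred_eq]
      tauto
    rw [this]; exact hS

lemma Approx.union {A B : Set (G → I)} (hA : Approx P A) (hB : Approx P B) :
    Approx P (A ∪ B) := by
  classical
  refine ⟨hA.1.union hB.1, fun κ hκ => ?_⟩
  have hκ2 : 0 < κ / 2 := ENNReal.half_pos hκ.ne'
  obtain ⟨K, _, b, F, S, hb, hF, hS⟩ := hA.2 (κ / 2) hκ2
  obtain ⟨K', _, b', F', S', hb', hF', hS'⟩ := hB.2 (κ / 2) hκ2
  refine ⟨K × K', inferInstance, fun t => (b t, b' t), F ∪ F',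
    {β | (fun u => (β u).1) ∈ S ∨ (fun u => (β u).2) ∈ S'}, ?_, ?_, ?_⟩
  · rintro ⟨k, k'⟩
    have : (fun t => (b t, b' t)) ⁻¹' {(k, k')} = b ⁻¹' {k} ∩ b' ⁻¹' {k'} := by
      ext t; simp
    rw [this]
    exact (hb k).inter (hb' k')
  · intro β β' h hβ
    rcases hβ with hβ | hβ
    · left
      refine hF _ _ (fun u hu => ?_) hβ
      have := h u (Finset.mem_union_left _ hu)
      exact congrArg Prod.fst this
    · right
      refine hF' _ _ (fun u hu => ?_) hβ
      have := h u (Finset.mem_union_right _ hu)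
      exact congrArg Prod.snd this
  · calc P (symmDiff (A ∪ B) {ω | (fun u => (b (ω u), b' (ω u))) ∈
          {β : G → K × K' | (fun u => (β u).1) ∈ S ∨ (fun u => (β u).2) ∈ S'}})
        ≤ P (symmDiff A {ω | (fun u => b (ω u)) ∈ S} ∪
            symmDiff B {ω | (fun u => b' (ω u)) ∈ S'}) := by
          refine measure_mono fun ω => ?_
          simp only [Set.mem_symmDiff, Set.mem_union, Set.mem_ofPred_eq]
          tauto
      _ ≤ κ / 2 + κ / 2 := (measure_union_le _ _).trans (add_le_add hS hS')
      _ = κ := ENNReal.add_halves κ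

lemma approx_empty : Approx P (∅ : Set (G → I)) := by
  refine ⟨MeasurableSet.empty, fun κ _ => ⟨Unit, inferInstance, fun _ => (), ∅, ∅, ?_, ?_, ?_⟩⟩
  · intro k
    have : (fun _ : I => ()) ⁻¹' {k} = Set.univ := by ext; simp
    rw [this]; exact MeasurableSet.univ
  · intro β β' _ h; exact h
  · simp

lemma Approx.biUnion {A : ℕ → Set (G → I)} (hA : ∀ i, Approx P (A i)) (m : ℕ) :
    Approx P (⋃ i ∈ Finset.range m, A i) := by
  induction m with
  | zero => simpa using approx_empty
  | succ m ih =>
    have : (⋃ i ∈ Finset.range (m + 1), A i) = (⋃ i ∈ Finset.range m, A i) ∪ A m := by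
      ext ω
      simp only [Finset.mem_range, Set.mem_iUnion, Set.mem_union, exists_prop, Nat.lt_succ_iff]
      constructor
      · rintro ⟨i, hi, h⟩
        rcases Nat.lt_or_eq_of_le hi with h' | h'
        · exact Or.inl ⟨i, h', h⟩
        · subst h'; exact Or.inr h
      · rintro (⟨i, hi, h⟩ | h)
        · exact ⟨i, hi.le, h⟩
        · exact ⟨m, le_rfl, h⟩
    rw [this]
    exact ih.union (hA m)

lemma Approx.iUnion {A : ℕ → Set (G → I)} (hA : ∀ i, Approx P (A i)) :
    Approx P (⋃ i, A i) := by
  refine ⟨MeasurableSet.iUnion fun i => (hA i).1, fun κ hκ => ?_⟩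
  have hκ2 : 0 < κ / 2 := ENNReal.half_pos hκ.ne'
  set B : ℕ → Set (G → I) := fun m => ⋃ i ∈ Finset.range m, A i with hB
  have hBm : ∀ m, MeasurableSet (B m) := fun m =>
    Finset.measurableSet_biUnion _ fun i _ => (hA i).1
  have ht : Filter.Tendsto (fun m => P ((⋃ i, A i) \ B m)) Filter.atTop (nhds 0) := by
    have h0 : P (⋂ m, ((⋃ i, A i) \ B m)) = 0 := by
      have : (⋂ m, ((⋃ i, A i) \ B m)) = ∅ := by
        ext ω
        simp only [Set.mem_iInter, Set.mem_sdiff, Set.mem_iUnion, hB, Finset.mem_range,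
          Set.mem_empty_iff_false, iff_false, not_forall, not_and]
        by_cases h : ∃ i, ω ∈ A i
        · obtain ⟨i, hi⟩ := h
          exact ⟨i + 1, fun _ h' => h' ⟨i, Nat.lt_succ_self i, hi⟩⟩
        · exact ⟨0, fun h' => absurd h' h⟩
      rw [this, measure_empty]
    rw [← h0]
    refine tendsto_measure_iInter_atTop
      (fun m => ((MeasurableSet.iUnion fun i => (hA i).1).diff (hBm m)).nullMeasurableSet)
      ?_ ⟨0, measure_ne_top _ _⟩
    intro m m' hmm ω hω
    refine ⟨hω.1, fun h => hω.2 ?_⟩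
    simp only [hB, Set.mem_iUnion, Finset.mem_range, exists_prop] at h ⊢
    obtain ⟨i, hi, h⟩ := h
    exact ⟨i, lt_of_lt_of_le hi hmm, h⟩
  obtain ⟨m, hm⟩ := (ht.eventually (Iic_mem_nhds hκ2)).exists
  obtain ⟨K, _, b, F, S, hb, hF, hS⟩ := (Approx.biUnion hA m).2 (κ / 2) hκ2
  refine ⟨K, inferInstance, b, F, S, hb, hF, ?_⟩
  calc P (symmDiff (⋃ i, A i) {ω | (fun u => b (ω u)) ∈ S})
      ≤ P (((⋃ i, A i) \ B m) ∪ symmDiff (B m) {ω | (fun u => b (ω u)) ∈ S}) := by
        refine measure_mono fun ω => ?_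
        have hsub : ω ∈ B m → ω ∈ ⋃ i, A i := by
          simp only [hB, Set.mem_iUnion]
          rintro ⟨i, _, h⟩
          exact ⟨i, h⟩
        simp only [Set.mem_symmDiff, Set.mem_union, Set.mem_sdiff]
        tauto
    _ ≤ κ / 2 + κ / 2 := (measure_union_le _ _).trans (add_le_add hm hS)
    _ = κ := ENNReal.add_halves κ

lemma approx_eval (u : G) {E : Set I} (hE : MeasurableSet E) :
    Approx P ((fun ω : G → I => ω u) ⁻¹' E) := by
  classical
  refine ⟨measurable_pi_apply u hE, fun κ _ => ⟨Bool, inferInstance, fun t => decide (t ∈ E), {u},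
    {β | β u = true}, ?_, ?_, ?_⟩⟩
  · intro k
    cases k
    · have : (fun t => decide (t ∈ E)) ⁻¹' {false} = Eᶜ := by ext; simp
      rw [this]; exact hE.compl
    · have : (fun t => decide (t ∈ E)) ⁻¹' {true} = E := by ext; simp
      rw [this]; exact hE
  · intro β β' h hβ
    have := h u (Finset.mem_singleton_self u)
    simp only [Set.mem_ofPred_eq] at hβ ⊢
    rw [← this]; exact hβ
  · have : ((fun ω : G → I => ω u) ⁻¹' E) = {ω | (fun u => decide (ω u ∈ E)) ∈
        {β : G → Bool | β u = true}} := by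
      ext; simp
    rw [← this, symmDiff_self]
    simp

/-- Every measurable set is approximable. -/
theorem approx_of_measurableSet {A : Set (G → I)} (hA : MeasurableSet A) : Approx P A := by
  let m : MeasurableSpace (G → I) :=
    { MeasurableSet' := Approx P
      measurableSet_empty := approx_empty
      measurableSet_compl := fun _ h => h.compl
      measurableSet_iUnion := fun _ h => Approx.iUnion h }
  have hle : (MeasurableSpace.pi : MeasurableSpace (G → I)) ≤ m := by
    refine iSup_le fun u => ?_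
    rw [MeasurableSpace.comap_le_iff_le_map]
    intro E hE
    exact approx_eval u hE
  exact hle A hA

/-- A measurable function with finitely many values is close to a finitely determined one. -/
theorem exists_code {L : Type*} [Fintype L] [Nonempty L] [MeasurableSpace L]
    [MeasurableSingletonClass L] {φ : (G → I) → L} (hφ : Measurable φ) {κ : ENNReal}
    (hκ : 0 < κ) :
    ∃ (K : Type) (_ : Fintype K) (b : I → K) (F : Finset G) (ψ : (G → K) → L),
      (∀ k, MeasurableSet (b ⁻¹' {k})) ∧
      (∀ β β' : G → K, (∀ u ∈ F, β u = β' u) → ψ β = ψ β') ∧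
      P {ω | φ ω ≠ ψ (fun u => b (ω u))} ≤ κ := by
  classical
  have hc : 0 < κ / Fintype.card L := by
    refine ENNReal.div_pos hκ.ne' (ENNReal.natCast_ne_top _)
  -- reindex the values by `Fin`
  let e := Fintype.equivFin L
  choose K instK b F S hb hF hS using fun σ : Fin (Fintype.card L) =>
    (approx_of_measurableSet (P := P) (hφ (measurableSet_singleton (e.symm σ)))).2 _ hc
  refine ⟨∀ σ, K σ, inferInstance, fun t σ => b σ t, Finset.univ.biUnion F,
    fun β => if h : ∃ σ, (fun u => β u σ) ∈ S σ then e.symm h.choose else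
      Classical.arbitrary _, ?_, ?_, ?_⟩
  · intro k
    have : (fun t σ => b σ t) ⁻¹' {k} = ⋂ σ, b σ ⁻¹' {k σ} := by
      ext t
      simp [funext_iff]
    rw [this]
    exact MeasurableSet.iInter fun σ => hb σ (k σ)
  · intro β β' h
    have hiff : ∀ σ, (fun u => β u σ) ∈ S σ ↔ (fun u => β' u σ) ∈ S σ := by
      intro σ
      constructor
      · refine hF σ _ _ fun u hu => ?_
        exact congrFun (h u (Finset.mem_biUnion.2 ⟨σ, Finset.mem_univ _, hu⟩)) σ
      · refine hF σ _ _ fun u hu => ?_
        exact (congrFun (h u (Finset.mem_biUnion.2 ⟨σ, Finset.mem_univ _, hu⟩)) σ).symm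
    simp only [hiff]
  · calc P {ω | φ ω ≠ (fun β : G → (∀ σ, K σ) => if h : ∃ σ, (fun u => β u σ) ∈ S σ then
          e.symm h.choose else Classical.arbitrary _) (fun u σ => b σ (ω u))}
        ≤ P (⋃ σ, symmDiff (φ ⁻¹' {e.symm σ}) {ω | (fun u => b σ (ω u)) ∈ S σ}) := by
          refine measure_mono fun ω hω => ?_
          simp only [Set.mem_iUnion]
          by_contra hcon
          push Not at hcon
          apply hω
          have hiff : ∀ σ, (fun u => b σ (ω u)) ∈ S σ ↔ φ ω = e.symm σ := by
            intro σ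
            have := hcon σ
            simp only [Set.mem_symmDiff, Set.mem_preimage, Set.mem_singleton_iff,
              Set.mem_ofPred_eq] at this
            tauto
          have hex : ∃ σ, (fun u => b σ (ω u)) ∈ S σ := ⟨e (φ ω), by rw [hiff]; simp⟩
          simp only [dif_pos hex]
          exact (hiff _).1 hex.choose_spec
      _ ≤ ∑ σ, P (symmDiff (φ ⁻¹' {e.symm σ}) {ω | (fun u => b σ (ω u)) ∈ S σ}) :=
          measure_iUnion_fintype_le _ _
      _ ≤ ∑ _σ : Fin (Fintype.card L), κ / Fintype.card L :=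
          Finset.sum_le_sum fun σ _ => hS σ
      _ = κ := by
          rw [Finset.sum_const, Finset.card_univ, Fintype.card_fin, nsmul_eq_mul]
          refine ENNReal.mul_div_cancel ?_ (ENNReal.natCast_ne_top _)
          exact_mod_cast Fintype.card_ne_zero

end Approx

end MPdc4ce7
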