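import Pool.Agent.Lib.MP_dc4ce7_lc.Marker

/-!
The Bernoulli shift over `ℤ^n` and configurations coded by a measurable function.
-/

set_option linter.unusedSectionVars false

namespace MPdc4ce7

open MeasureTheory Set

/-- The shift. -/
def sh {n : ℕ} {A : Type*} (v : Zn n) (z : Zn n → A) : Zn n → A := fun u => z (u + v)

lemma sh_apply {n : ℕ} {A : Type*} (v : Zn n) (z : Zn n → A) (u : Zn n) :
    sh v z u = z (u + v) := rfl

lemma sh_zero {n : ℕ} {A : Type*} (z : Zn n → A) : sh 0 z = z := by
  funext u; simp [sh]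

lemma sh_sh {n : ℕ} {A : Type*} (v w : Zn n) (z : Zn n → A) : sh v (sh w z) = sh (v + w) z := by
  funext u; simp [sh, add_assoc]

section

variable {n : ℕ} {I L : Type*} [MeasurableSpace I]

lemma measurable_sh (v : Zn n) : Measurable (sh v : (Zn n → I) → (Zn n → I)) :=
  measurable_pi_lambda _ fun u => measurable_pi_apply (u + v)

/-- The iid measure. -/
noncomputable def PP (n : ℕ) (lam : Measure I) : Measure (Zn n → I) :=
  Measure.infinitePi (fun _ : Zn n => lam)

variable (lam : Measure I) [IsProbabilityMeasure lam]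

instance : IsProbabilityMeasure (PP n lam) := by unfold PP; infer_instance

lemma map_sh (v : Zn n) : (PP n lam).map (sh v) = PP n lam := by
  classical
  refine Measure.eq_infinitePi (fun _ : Zn n => lam) fun s t ht => ?_
  rw [Measure.map_apply (measurable_sh v) (MeasurableSet.pi s.countable_toSet fun i _ => ht i)]
  have : (sh v) ⁻¹' (Set.pi (s : Set (Zn n)) t) =
      Set.pi (s.image (· + v) : Finset (Zn n)) (fun u => t (u - v)) := by
    ext ω
    simp only [Set.mem_preimage, Set.mem_pi, Finset.mem_coe, Finset.mem_image, sh_apply]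
    constructor
    · rintro h u ⟨w, hw, rfl⟩
      simpa using h w hw
    · intro h u hu
      simpa using h (u + v) ⟨u, hu, rfl⟩
  rw [this, PP, Measure.infinitePi_pi (fun _ : Zn n => lam) (fun i _ => ht (i - v)),
    Finset.prod_image (fun a _ b _ h => by simpa using h)]
  simp

lemma measurePreserving_sh (v : Zn n) : MeasurePreserving (sh v) (PP n lam) (PP n lam) :=
  ⟨measurable_sh v, map_sh lam v⟩

/-- The configuration coded by `φ`. -/
def cf (φ : (Zn n → I) → L) (ω : Zn n → I) : Zn n → L := fun v => φ (sh v ω)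

lemma cf_sh (φ : (Zn n → I) → L) (v : Zn n) (ω : Zn n → I) :
    cf φ (sh v ω) = sh v (cf φ ω) := by
  funext u
  simp [cf, sh_apply, sh_sh]

/-- Agreement on a finite set. -/
def agree {A : Type*} (S : Finset (Zn n)) (z z' : Zn n → A) : Prop := ∀ u ∈ S, z u = z' u

open scoped Classical in
/-- Number of disagreements. -/
noncomputable def dis {A : Type*} (S : Finset (Zn n)) (z z' : Zn n → A) : ℕ :=
  (S.filter fun u => z u ≠ z' u).card

lemma dis_le {A : Type*} (S : Finset (Zn n)) (z z' : Zn n → A) : dis S z z' ≤ S.card := by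
  classical
  unfold dis
  exact Finset.card_le_card (Finset.filter_subset _ _)

lemma dis_congr {A : Type*} {S : Finset (Zn n)} {z₁ z₂ z₁' z₂' : Zn n → A} (h : agree S z₁ z₂)
    (h' : agree S z₁' z₂') : dis S z₁ z₁' = dis S z₂ z₂' := by
  unfold dis
  congr 1
  ext u
  simp only [Finset.mem_filter]
  constructor
  · rintro ⟨hu, hne⟩
    exact ⟨hu, by rwa [← h u hu, ← h' u hu]⟩
  · rintro ⟨hu, hne⟩
    exact ⟨hu, by rwa [h u hu, h' u hu]⟩

lemma measurable_of_factor {α β γ : Type*} [MeasurableSpace α] [MeasurableSpace β]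
    [MeasurableSpace γ] [Countable γ] [MeasurableSingletonClass γ] {r : α → γ}
    (hr : Measurable r) {f : α → β} (h : ∀ x y, r x = r y → f x = f y) : Measurable f := by
  intro E _
  have : f ⁻¹' E = ⋃ c ∈ r '' (f ⁻¹' E), r ⁻¹' {c} := by
    ext x
    simp only [Set.mem_iUnion, Set.mem_image, Set.mem_preimage, Set.mem_singleton_iff,
      exists_prop]
    constructor
    · intro hx
      exact ⟨r x, ⟨x, hx, rfl⟩, rfl⟩
    · rintro ⟨c, ⟨y, hy, hyc⟩, hx⟩
      rw [h x y (hx.trans hyc.symm)]
      exact hy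
  rw [this]
  exact MeasurableSet.biUnion (Set.to_countable _) fun c _ => hr (measurableSet_singleton c)

variable [Fintype L] [MeasurableSpace L] [MeasurableSingletonClass L]

lemma measurable_cf {φ : (Zn n → I) → L} (hφ : Measurable φ) : Measurable (cf φ) :=
  measurable_pi_lambda _ fun u => hφ.comp (measurable_sh u)

/-- A function of the pattern on a finite set is measurable. -/
lemma measurable_of_agree {φ : (Zn n → I) → L} (hφ : Measurable φ) {β : Type*}
    [MeasurableSpace β] (S : Finset (Zn n)) {f : (Zn n → I) → β}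
    (h : ∀ ω ω', agree S (cf φ ω) (cf φ ω') → f ω = f ω') : Measurable f := by
  have hr : Measurable fun (ω : Zn n → I) (u : S) => cf φ ω u :=
    measurable_pi_lambda _ fun u => (measurable_pi_apply (u : Zn n)).comp (measurable_cf hφ)
  refine measurable_of_factor hr fun ω ω' hω => h ω ω' fun u hu => ?_
  exact congrFun hω ⟨u, hu⟩

/-- A function of two patterns on finite sets is jointly measurable. -/
lemma measurable_of_agree₂ {φ : (Zn n → I) → L} (hφ : Measurable φ) {β : Type*}
    [MeasurableSpace β] (S T : Finset (Zn n)) {f : (Zn n → I) → (Zn n → I) → β}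
    (h : ∀ ω₁ ω₁' ω₂ ω₂', agree S (cf φ ω₁) (cf φ ω₁') → agree T (cf φ ω₂) (cf φ ω₂') →
      f ω₁ ω₂ = f ω₁' ω₂') : Measurable (Function.uncurry f) := by
  have hr : Measurable fun (ω : (Zn n → I) × (Zn n → I)) =>
      ((fun u : S => cf φ ω.1 u, fun u : T => cf φ ω.2 u) : (S → L) × (T → L)) := by
    refine Measurable.prodMk ?_ ?_
    · exact measurable_pi_lambda _ fun u =>
        (measurable_pi_apply (u : Zn n)).comp ((measurable_cf hφ).comp measurable_fst)
    · exact measurable_pi_lambda _ fun u =>
        (measurable_pi_apply (u : Zn n)).comp ((measurable_cf hφ).comp measurable_snd)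
  refine measurable_of_factor hr ?_
  rintro ⟨ω₁, ω₂⟩ ⟨ω₁', ω₂'⟩ hω
  refine h _ _ _ _ (fun u hu => ?_) (fun u hu => ?_)
  · exact congrFun (congrArg Prod.fst hω) ⟨u, hu⟩
  · exact congrFun (congrArg Prod.snd hω) ⟨u, hu⟩

end

end MPdc4ce7
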