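import Pool.Agent.Lib.MP_dc4ce7_lc.Concentration
import Pool.Agent.Lib.MP_dc4ce7_lc.Approx
import Pool.Agent.Lib.MP_dc4ce7_lc.Shift

/-!
Blow-up for the iid field, in terms of a finite coding of the labels.
-/

set_option linter.unusedSectionVars false

namespace MPdc4ce7

open MeasureTheory Set

section Code

variable {n : ℕ} {I K : Type*} [MeasurableSpace I] [Fintype K] (lam : Measure I)
  [IsProbabilityMeasure lam]

/-- The law of the coded label. -/
noncomputable def pk (b : I → K) (k : K) : ℝ := (lam (b ⁻¹' {k})).toReal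

lemma pk_nonneg (b : I → K) (k : K) : 0 ≤ pk lam b k := ENNReal.toReal_nonneg

lemma sum_pk {b : I → K} (hb : ∀ k, MeasurableSet (b ⁻¹' {k})) : ∑ k, pk lam b k = 1 := by
  unfold pk
  rw [← ENNReal.toReal_sum (fun k _ => measure_ne_top _ _)]
  rw [sum_measure_preimage_singleton Finset.univ (fun k _ => hb k)]
  simp

/-- The coded pattern. -/
def bt (b : I → K) (W : Finset (Zn n)) (ω : Zn n → I) : W → K := fun w => b (ω w)

lemma PP_bt {b : I → K} (hb : ∀ k, MeasurableSet (b ⁻¹' {k})) (W : Finset (Zn n))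
    (a : W → K) : PP n lam {ω | bt b W ω = a} = ENNReal.ofReal (pw (pk lam b) a) := by
  have h1 : {ω : Zn n → I | bt b W ω = a} =
      W.restrict ⁻¹' (Set.pi Set.univ fun w : W => b ⁻¹' {a w}) := by
    ext ω
    simp [bt, funext_iff]
  have hm : MeasurableSet (Set.pi Set.univ fun w : W => b ⁻¹' {a w}) :=
    MeasurableSet.univ_pi fun w => hb (a w)
  rw [h1, ← Measure.map_apply (Finset.measurable_restrict W) hm, PP,
    Measure.infinitePi_map_restrict, Measure.pi_pi]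
  unfold pw pk
  rw [ENNReal.ofReal_prod_of_nonneg (fun i _ => ENNReal.toReal_nonneg)]
  refine Finset.prod_congr rfl fun w _ => ?_
  rw [ENNReal.ofReal_toReal (measure_ne_top _ _)]

lemma measurable_bt [MeasurableSpace K] {b : I → K} (hb : ∀ k, MeasurableSet (b ⁻¹' {k}))
    (W : Finset (Zn n)) : Measurable (bt b W : (Zn n → I) → (W → K)) := by
  have hbm : Measurable b := measurable_to_countable' hb
  exact measurable_pi_lambda _ fun w => hbm.comp (measurable_pi_apply _)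

lemma lintegral_bt {b : I → K} (hb : ∀ k, MeasurableSet (b ⁻¹' {k})) (W : Finset (Zn n))
    (h : (W → K) → ℝ) (h0 : ∀ a, 0 ≤ h a) :
    ∫⁻ ω, ENNReal.ofReal (h (bt b W ω)) ∂(PP n lam) =
      ENNReal.ofReal (∑ a, pw (pk lam b) a * h a) := by
  let _ : MeasurableSpace K := ⊤
  have hm := measurable_bt hb W
  have h1 : ∫⁻ ω, ENNReal.ofReal (h (bt b W ω)) ∂(PP n lam) =
      ∫⁻ a, ENNReal.ofReal (h a) ∂((PP n lam).map (bt b W)) := by
    rw [lintegral_map (measurable_of_countable _) hm]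
  rw [h1, lintegral_fintype, ENNReal.ofReal_sum_of_nonneg
    (fun a _ => mul_nonneg (pw_nonneg (pk_nonneg lam b) a) (h0 a))]
  refine Finset.sum_congr rfl fun a _ => ?_
  rw [Measure.map_apply hm (measurableSet_singleton a)]
  have : bt b W ⁻¹' {a} = {ω : Zn n → I | bt b W ω = a} := rfl
  rw [this, PP_bt lam hb, ENNReal.ofReal_mul (pw_nonneg (pk_nonneg lam b) a), mul_comm]

/-- Blow-up in the iid field. -/
theorem lintegral_hd_le [DecidableEq K] {b : I → K} (hb : ∀ k, MeasurableSet (b ⁻¹' {k}))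
    (W : Finset (Zn n)) (A : Set (W → K)) {q : ℝ} (hq : 0 < q)
    (hA : ENNReal.ofReal q ≤ PP n lam {ω | bt b W ω ∈ A}) {s : ℝ} (hs : 0 < s) (hs1 : s ≤ 1) :
    ∫⁻ ω, (hd A (bt b W ω) : ENNReal) ∂(PP n lam) ≤
      ENNReal.ofReal (s * W.card + Real.log (1 / q) / s) := by
  classical
  have h1 : ∫⁻ ω, (hd A (bt b W ω) : ENNReal) ∂(PP n lam) =
      ∫⁻ ω, ENNReal.ofReal ((fun a => (hd A a : ℝ)) (bt b W ω)) ∂(PP n lam) := by
    refine lintegral_congr fun ω => ?_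
    simp
  rw [h1, lintegral_bt lam hb W (fun a => (hd A a : ℝ)) (fun a => Nat.cast_nonneg _)]
  refine ENNReal.ofReal_le_ofReal ?_
  have h2 : q ≤ ∑ a with a ∈ A, pw (pk lam b) a := by
    have h3 : PP n lam {ω | bt b W ω ∈ A} =
        ENNReal.ofReal (∑ a, pw (pk lam b) a * (if a ∈ A then 1 else 0)) := by
      rw [← lintegral_bt lam hb W (fun a => if a ∈ A then 1 else 0)
        (fun a => by split_ifs <;> norm_num)]
      have hms : MeasurableSet {ω : Zn n → I | bt b W ω ∈ A} := by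
        let _ : MeasurableSpace K := ⊤
        exact (measurable_bt hb W) (Set.toFinite A).measurableSet
      rw [← lintegral_indicator_one hms]
      refine lintegral_congr fun ω => ?_
      by_cases h : bt b W ω ∈ A
      · simp [h]
      · simp [h]
    rw [h3] at hA
    have h4 : 0 ≤ ∑ a, pw (pk lam b) a * (if a ∈ A then (1 : ℝ) else 0) :=
      Finset.sum_nonneg fun a _ => mul_nonneg (pw_nonneg (pk_nonneg lam b) a)
        (by split_ifs <;> norm_num)
    have h5 := (ENNReal.ofReal_le_ofReal_iff h4).1 hA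
    rw [Finset.sum_filter]
    simpa [mul_ite] using h5
  have := mean_hd_le (pk_nonneg lam b) (sum_pk lam hb) hq h2 hs hs1
  rwa [Fintype.card_coe] at this

end Code

section Combi

variable {n : ℕ} {I L K : Type*}

/-- Number of coding errors. -/
noncomputable def cnt (φ : (Zn n → I) → L) (b : I → K) (ψ : (Zn n → K) → L)
    (Q : Finset (Zn n)) (ω : Zn n → I) : ℕ :=
  dis Q (cf φ ω) (fun u => ψ (fun f => b (sh u ω f)))

lemma dis_triangle {A : Type*} (S : Finset (Zn n)) (z₁ z₂ z₃ : Zn n → A) :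
    dis S z₁ z₃ ≤ dis S z₁ z₂ + dis S z₂ z₃ := by
  classical
  unfold dis
  refine le_trans (Finset.card_le_card ?_) (Finset.card_union_le _ _)
  intro u hu
  simp only [Finset.mem_union, Finset.mem_filter] at hu ⊢
  by_cases h : z₁ u = z₂ u
  · right; exact ⟨hu.1, by rw [← h]; exact hu.2⟩
  · left; exact ⟨hu.1, h⟩

lemma dis_comm {A : Type*} (S : Finset (Zn n)) (z₁ z₂ : Zn n → A) :
    dis S z₁ z₂ = dis S z₂ z₁ := by
  unfold dis
  congr 1
  ext u
  simp only [Finset.mem_filter]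
  constructor
  · rintro ⟨h, h'⟩; exact ⟨h, Ne.symm h'⟩
  · rintro ⟨h, h'⟩; exact ⟨h, Ne.symm h'⟩

lemma dis_le_cnt [DecidableEq K] (φ : (Zn n → I) → L) (b : I → K) (ψ : (Zn n → K) → L)
    (F Q W : Finset (Zn n)) (hF : ∀ β β' : Zn n → K, (∀ u ∈ F, β u = β' u) → ψ β = ψ β')
    (hW : ∀ u ∈ Q, ∀ f ∈ F, f + u ∈ W) (ω₁ ω₂ : Zn n → I) :
    dis Q (cf φ ω₁) (cf φ ω₂) ≤ cnt φ b ψ Q ω₁ + cnt φ b ψ Q ω₂ +
      F.card * hammingDist (bt b W ω₁) (bt b W ω₂) := by
  classical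
  have h1 : dis Q (fun u => ψ (fun f => b (sh u ω₁ f))) (fun u => ψ (fun f => b (sh u ω₂ f))) ≤
      F.card * hammingDist (bt b W ω₁) (bt b W ω₂) := by
    unfold dis hammingDist
    calc _ ≤ (F.biUnion fun f => (Finset.univ.filter fun w : W => bt b W ω₁ w ≠ bt b W ω₂ w).image
            (fun w : {x // x ∈ W} => (w : Zn n) - f)).card := by
          refine Finset.card_le_card fun u hu => ?_
          rw [Finset.mem_filter] at hu
          have : ∃ f ∈ F, b (sh u ω₁ f) ≠ b (sh u ω₂ f) := by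
            by_contra hcon
            push Not at hcon
            exact hu.2 (hF _ _ hcon)
          obtain ⟨f, hf, hne⟩ := this
          rw [Finset.mem_biUnion]
          refine ⟨f, hf, Finset.mem_image.2 ⟨⟨f + u, hW u hu.1 f hf⟩, ?_, ?_⟩⟩
          · rw [Finset.mem_filter]
            exact ⟨Finset.mem_univ _, hne⟩
          · simp
      _ ≤ ∑ f ∈ F, ((Finset.univ.filter fun w : W => bt b W ω₁ w ≠ bt b W ω₂ w).image
            (fun w : {x // x ∈ W} => (w : Zn n) - f)).card := Finset.card_biUnion_le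
      _ ≤ ∑ _f ∈ F, (Finset.univ.filter fun w : W => bt b W ω₁ w ≠ bt b W ω₂ w).card :=
          Finset.sum_le_sum fun f _ => Finset.card_image_le
      _ = _ := by rw [Finset.sum_const, smul_eq_mul]
  have h2 := dis_triangle Q (cf φ ω₁) (fun u => ψ (fun f => b (sh u ω₁ f))) (cf φ ω₂)
  have h3 := dis_triangle Q (fun u => ψ (fun f => b (sh u ω₁ f)))
    (fun u => ψ (fun f => b (sh u ω₂ f))) (cf φ ω₂)
  have h4 := dis_comm Q (fun u => ψ (fun f => b (sh u ω₂ f))) (cf φ ω₂)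
  unfold cnt
  omega

/-- Cost of imitating `ω'` on `Q` while agreeing with `ω` on `Z`. -/
noncomputable def dd (φ : (Zn n → I) → L) (O : Set (Zn n → I)) (Z Q : Finset (Zn n))
    (ω' ω : Zn n → I) : ℕ :=
  sInf ((fun ω'' => dis Q (cf φ ω'') (cf φ ω')) '' {ω'' | ω'' ∈ O ∧ agree Z (cf φ ω'') (cf φ ω)})

lemma agree_refl {A : Type*} (S : Finset (Zn n)) (z : Zn n → A) : agree S z z := fun _ _ => rfl

lemma dd_congr {φ : (Zn n → I) → L} {O : Set (Zn n → I)} {Z Q : Finset (Zn n)}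
    {ω₁' ω₂' ω₁ ω₂ : Zn n → I} (h' : agree Q (cf φ ω₁') (cf φ ω₂'))
    (h : agree Z (cf φ ω₁) (cf φ ω₂)) : dd φ O Z Q ω₁' ω₁ = dd φ O Z Q ω₂' ω₂ := by
  unfold dd
  have h1 : {ω'' | ω'' ∈ O ∧ agree Z (cf φ ω'') (cf φ ω₁)} =
      {ω'' | ω'' ∈ O ∧ agree Z (cf φ ω'') (cf φ ω₂)} := by
    ext ω''
    simp only [Set.mem_ofPred_eq]
    refine and_congr_right fun _ => ?_
    constructor
    · intro ha u hu; rw [ha u hu, h u hu]
    · intro ha u hu; rw [ha u hu, h u hu]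
  have h2 : (fun ω'' => dis Q (cf φ ω'') (cf φ ω₁')) = (fun ω'' => dis Q (cf φ ω'') (cf φ ω₂')) := by
    funext ω''
    exact dis_congr (agree_refl _ _) h'
  rw [h1, h2]

lemma dd_le {φ : (Zn n → I) → L} {O : Set (Zn n → I)} {Z Q : Finset (Zn n)}
    {ω' ω ω'' : Zn n → I} (h : ω'' ∈ O) (ha : agree Z (cf φ ω'') (cf φ ω)) :
    dd φ O Z Q ω' ω ≤ dis Q (cf φ ω'') (cf φ ω') :=
  Nat.sInf_le ⟨ω'', ⟨h, ha⟩, rfl⟩

lemma dd_le_card {φ : (Zn n → I) → L} {O : Set (Zn n → I)} {Z Q : Finset (Zn n)}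
    {ω' ω : Zn n → I} (h : ω ∈ O) : dd φ O Z Q ω' ω ≤ Q.card :=
  (dd_le h (agree_refl _ _)).trans (dis_le _ _ _)

lemma exists_dd {φ : (Zn n → I) → L} {O : Set (Zn n → I)} {Z Q : Finset (Zn n)}
    {ω' ω : Zn n → I} (h : ω ∈ O) :
    ∃ ω'' ∈ O, agree Z (cf φ ω'') (cf φ ω) ∧ dis Q (cf φ ω'') (cf φ ω') = dd φ O Z Q ω' ω := by
  have hne : ((fun ω'' => dis Q (cf φ ω'') (cf φ ω')) ''
      {ω'' | ω'' ∈ O ∧ agree Z (cf φ ω'') (cf φ ω)}).Nonempty :=
    ⟨_, ⟨ω, ⟨h, agree_refl _ _⟩, rfl⟩⟩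
  obtain ⟨ω'', hω'', h'⟩ := Nat.sInf_mem hne
  exact ⟨ω'', hω''.1, hω''.2, h'⟩

end Combi

end MPdc4ce7
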