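import Mathlib

/-!
Concentration of the Hamming distance to a set in a finite product of a finite
probability space.
-/

set_option linter.unusedSectionVars false

namespace MPdc4ce7

open Finset

section Conc

variable {W K : Type*} [Fintype W] [DecidableEq W] [Fintype K]

/-- Product weight. -/
noncomputable def pw (p : K → ℝ) (a : W → K) : ℝ := ∏ w, p (a w)

/-- Averaging over one coordinate. -/
noncomputable def av (p : K → ℝ) (w : W) (f : (W → K) → ℝ) (a : W → K) : ℝ :=
  ∑ k, p k * f (Function.update a w k)

/-- Averaging over a list of coordinates. -/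
noncomputable def avl (p : K → ℝ) (l : List W) (f : (W → K) → ℝ) : (W → K) → ℝ :=
  l.foldr (fun w g => av p w g) f

/-- Coordinatewise 1-Lipschitz functions. -/
def Lip (f : (W → K) → ℝ) : Prop := ∀ a w k, |f (Function.update a w k) - f a| ≤ 1

/-- Independence of one coordinate. -/
def NoDep (w : W) (f : (W → K) → ℝ) : Prop := ∀ a k, f (Function.update a w k) = f a

lemma pw_nonneg {p : K → ℝ} (hp : ∀ k, 0 ≤ p k) (a : W → K) : 0 ≤ pw p a :=
  Finset.prod_nonneg fun w _ => hp (a w)

lemma pw_update (p : K → ℝ) (a : W → K) (w : W) (k : K) :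
    pw p a * p k = pw p (Function.update a w k) * p (a w) := by
  unfold pw
  rw [← Finset.mul_prod_erase Finset.univ (fun i => p (a i)) (Finset.mem_univ w),
    ← Finset.mul_prod_erase Finset.univ (fun i => p (Function.update a w k i)) (Finset.mem_univ w)]
  have : ∏ x ∈ univ.erase w, p (Function.update a w k x) = ∏ x ∈ univ.erase w, p (a x) := by
    refine Finset.prod_congr rfl fun x hx => ?_
    rw [Function.update_of_ne (Finset.ne_of_mem_erase hx)]
  rw [this, Function.update_self]
  ring

variable {p : K → ℝ} (hp : ∀ k, 0 ≤ p k) (hp1 : ∑ k, p k = 1)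

include hp1 in
lemma sum_pw : ∑ a : W → K, pw p a = 1 := by
  unfold pw
  rw [← Fintype.piFinset_univ, Finset.sum_prod_piFinset]
  simp [hp1]

include hp1 in
lemma sum_av (w : W) (f : (W → K) → ℝ) :
    ∑ a, pw p a * av p w f a = ∑ a, pw p a * f a := by
  classical
  unfold av
  have h1 : ∑ a, pw p a * ∑ k, p k * f (Function.update a w k) =
      ∑ x : (W → K) × K, pw p x.1 * p x.2 * f (Function.update x.1 w x.2) := by
    rw [Fintype.sum_prod_type]
    refine Finset.sum_congr rfl fun a _ => ?_
    rw [Finset.mul_sum]
    refine Finset.sum_congr rfl fun k _ => ?_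
    ring
  have h2 : ∑ a, pw p a * f a = ∑ x : (W → K) × K, pw p x.1 * p x.2 * f x.1 := by
    rw [Fintype.sum_prod_type]
    refine Finset.sum_congr rfl fun a _ => ?_
    have : ∑ k, pw p a * p k * f a = (∑ k, p k) * (pw p a * f a) := by
      rw [Finset.sum_mul]
      refine Finset.sum_congr rfl fun k _ => by ring
    rw [this, hp1, one_mul]
  rw [h1, h2]
  let e' : ((W → K) × K) ≃ ((W → K) × K) :=
    { toFun := fun x => (Function.update x.1 w x.2, x.1 w)
      invFun := fun x => (Function.update x.1 w x.2, x.1 w)
      left_inv := by intro x; ext <;> simp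
      right_inv := by intro x; ext <;> simp }
  refine Fintype.sum_equiv e' _ _ fun x => ?_
  change pw p x.1 * p x.2 * f (Function.update x.1 w x.2) =
    pw p (Function.update x.1 w x.2) * p (x.1 w) * f (Function.update x.1 w x.2)
  rw [pw_update]

include hp1 in
lemma sum_avl (l : List W) (f : (W → K) → ℝ) :
    ∑ a, pw p a * avl p l f a = ∑ a, pw p a * f a := by
  induction l with
  | nil => rfl
  | cons w l ih =>
    change ∑ a, pw p a * av p w (avl p l f) a = _
    rw [sum_av hp1, ih]

include hp in
lemma av_mono (w : W) {f g : (W → K) → ℝ} (h : ∀ a, f a ≤ g a) (a : W → K) :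
    av p w f a ≤ av p w g a :=
  Finset.sum_le_sum fun k _ => mul_le_mul_of_nonneg_left (h _) (hp k)

include hp hp1 in
lemma Lip.av {f : (W → K) → ℝ} (hf : Lip f) (w : W) : Lip (av p w f) := by
  intro a w' k'
  unfold MPdc4ce7.av
  rw [← Finset.sum_sub_distrib]
  by_cases h : w' = w
  · subst h
    simp
  · calc |∑ k, (p k * f (Function.update (Function.update a w' k') w k) -
            p k * f (Function.update a w k))|
        ≤ ∑ k, |p k * f (Function.update (Function.update a w' k') w k) -
            p k * f (Function.update a w k)| := Finset.abs_sum_le_sum_abs _ _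
      _ ≤ ∑ k, p k := by
          refine Finset.sum_le_sum fun k _ => ?_
          rw [← mul_sub, abs_mul, abs_of_nonneg (hp k)]
          have : Function.update (Function.update a w' k') w k =
              Function.update (Function.update a w k) w' k' :=
            Function.update_comm h k' k a
          rw [this]
          calc p k * |f (Function.update (Function.update a w k) w' k') - f (Function.update a w k)|
              ≤ p k * 1 := mul_le_mul_of_nonneg_left (hf _ _ _) (hp k)
            _ = p k := mul_one _
      _ = 1 := hp1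

include hp hp1 in
lemma Lip.avl {f : (W → K) → ℝ} (hf : Lip f) (l : List W) : Lip (avl p l f) := by
  induction l with
  | nil => exact hf
  | cons w l ih => exact Lip.av hp hp1 ih w

lemma NoDep.av_self (w : W) (f : (W → K) → ℝ) : NoDep w (av p w f) := by
  intro a k
  simp [av]

lemma NoDep.av {w : W} {f : (W → K) → ℝ} (hf : NoDep w f) (w' : W) : NoDep w (av p w' f) := by
  intro a k
  by_cases h : w = w'
  · subst h; exact NoDep.av_self w f a k
  · unfold MPdc4ce7.av
    refine Finset.sum_congr rfl fun j _ => ?_
    rw [Function.update_comm h, hf]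

lemma NoDep.avl {w : W} (f : (W → K) → ℝ) (l : List W) (hw : w ∈ l) : NoDep w (avl p l f) := by
  induction l with
  | nil => simp at hw
  | cons w' l ih =>
    rcases List.mem_cons.1 hw with h | h
    · subst h; exact NoDep.av_self _ _
    · exact NoDep.av (ih h) w'

lemma const_of_noDep {f : (W → K) → ℝ} (hf : ∀ w, NoDep w f) (a b : W → K) : f a = f b := by
  have : ∀ s : Finset W, f (s.piecewise b a) = f a := by
    intro s
    induction s using Finset.induction with
    | empty => simp
    | insert w s hw ih => rw [Finset.piecewise_insert, hf w, ih]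
  have h := this Finset.univ
  rw [Finset.piecewise_univ] at h
  exact h.symm

include hp hp1 in
/-- The one-coordinate estimate. -/
lemma exp_av {f : (W → K) → ℝ} (hf : Lip f) {s : ℝ} (hs : 0 ≤ s) (hs1 : s ≤ 1) (w : W)
    (a : W → K) :
    av p w (fun a => Real.exp (-s * f a)) a ≤ Real.exp (-s * av p w f a + s ^ 2) := by
  set m := av p w f a with hm
  have hX : ∀ j k, |f (Function.update a w j) - f (Function.update a w k)| ≤ 1 := by
    intro j k
    have := hf (Function.update a w k) w j
    rwa [Function.update_idem] at this
  have hXm : ∀ j, |f (Function.update a w j) - m| ≤ 1 := by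
    intro j
    have : f (Function.update a w j) - m =
        ∑ k, p k * (f (Function.update a w j) - f (Function.update a w k)) := by
      simp only [mul_sub, Finset.sum_sub_distrib]
      rw [← Finset.sum_mul, hp1, one_mul]
      rfl
    rw [this]
    calc |∑ k, p k * (f (Function.update a w j) - f (Function.update a w k))|
        ≤ ∑ k, |p k * (f (Function.update a w j) - f (Function.update a w k))| :=
          Finset.abs_sum_le_sum_abs _ _
      _ ≤ ∑ k, p k := by
          refine Finset.sum_le_sum fun k _ => ?_
          rw [abs_mul, abs_of_nonneg (hp k)]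
          calc _ ≤ p k * 1 := mul_le_mul_of_nonneg_left (hX j k) (hp k)
            _ = p k := mul_one _
      _ = 1 := hp1
  have key : ∀ j, Real.exp (-s * f (Function.update a w j)) ≤
      Real.exp (-s * m) * (1 + -s * (f (Function.update a w j) - m) + s ^ 2) := by
    intro j
    have h1 : Real.exp (-s * f (Function.update a w j)) =
        Real.exp (-s * m) * Real.exp (-s * (f (Function.update a w j) - m)) := by
      rw [← Real.exp_add]; ring_nf
    rw [h1]
    refine mul_le_mul_of_nonneg_left ?_ (Real.exp_pos _).le
    have habs : |-s * (f (Function.update a w j) - m)| ≤ s := by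
      rw [abs_mul, abs_neg, abs_of_nonneg hs]
      calc _ ≤ s * 1 := mul_le_mul_of_nonneg_left (hXm j) hs
        _ = s := mul_one _
    have h2 := Real.abs_exp_sub_one_sub_id_le (le_trans habs hs1)
    have h3 := (abs_le.1 h2).2
    have h4 : (-s * (f (Function.update a w j) - m)) ^ 2 ≤ s ^ 2 := by
      rw [← sq_abs]
      exact pow_le_pow_left₀ (abs_nonneg _) habs 2
    linarith
  calc av p w (fun a => Real.exp (-s * f a)) a
      ≤ ∑ k, p k * (Real.exp (-s * m) * (1 + -s * (f (Function.update a w k) - m) + s ^ 2)) :=
        Finset.sum_le_sum fun k _ => mul_le_mul_of_nonneg_left (key k) (hp k)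
    _ = Real.exp (-s * m) * (1 + s ^ 2) := by
        have : ∀ k, p k * (Real.exp (-s * m) * (1 + -s * (f (Function.update a w k) - m) + s ^ 2)) =
            Real.exp (-s * m) * (1 + s ^ 2) * p k + Real.exp (-s * m) * s * m * p k -
              Real.exp (-s * m) * s * (p k * f (Function.update a w k)) := by
          intro k; ring
        simp only [this]
        rw [Finset.sum_sub_distrib, Finset.sum_add_distrib, ← Finset.mul_sum, ← Finset.mul_sum,
          ← Finset.mul_sum, hp1]
        change _ - Real.exp (-s * m) * s * m = _
        ring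
    _ ≤ Real.exp (-s * m) * Real.exp (s ^ 2) := by
        refine mul_le_mul_of_nonneg_left ?_ (Real.exp_pos _).le
        have := Real.add_one_le_exp (s ^ 2)
        linarith
    _ = Real.exp (-s * m + s ^ 2) := by rw [← Real.exp_add]

include hp hp1 in
lemma exp_avl {f : (W → K) → ℝ} (hf : Lip f) {s : ℝ} (hs : 0 ≤ s) (hs1 : s ≤ 1) (l : List W)
    (a : W → K) :
    avl p l (fun a => Real.exp (-s * f a)) a ≤ Real.exp (-s * avl p l f a + l.length * s ^ 2) := by
  induction l generalizing a with
  | nil => simp [avl]
  | cons w l ih =>
    change av p w (avl p l _) a ≤ _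
    calc av p w (avl p l fun a => Real.exp (-s * f a)) a
        ≤ av p w (fun a => Real.exp (-s * avl p l f a + l.length * s ^ 2)) a :=
          av_mono hp w ih a
      _ = Real.exp (l.length * s ^ 2) * av p w (fun a => Real.exp (-s * avl p l f a)) a := by
          unfold av
          rw [Finset.mul_sum]
          refine Finset.sum_congr rfl fun k _ => ?_
          beta_reduce
          rw [Real.exp_add]; ring
      _ ≤ Real.exp (l.length * s ^ 2) * Real.exp (-s * av p w (avl p l f) a + s ^ 2) :=
          mul_le_mul_of_nonneg_left (exp_av hp hp1 (Lip.avl hp hp1 hf l) hs hs1 w a)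
            (Real.exp_pos _).le
      _ = Real.exp (-s * avl p (w :: l) f a + (w :: l).length * s ^ 2) := by
          rw [← Real.exp_add]
          congr 1
          change _ = -s * av p w (avl p l f) a + _
          rw [List.length_cons]
          push_cast
          ring

include hp hp1 in
/-- Exponential moment bound for coordinatewise 1-Lipschitz functions. -/
lemma exp_moment {f : (W → K) → ℝ} (hf : Lip f) {s : ℝ} (hs : 0 ≤ s) (hs1 : s ≤ 1) :
    ∑ a, pw p a * Real.exp (-s * f a) ≤
      Real.exp (-s * (∑ a, pw p a * f a) + Fintype.card W * s ^ 2) := by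
  classical
  set l := (Finset.univ : Finset W).toList with hl
  have hc : ∀ a b, avl p l f a = avl p l f b :=
    const_of_noDep fun w => NoDep.avl f l (by simp [hl])
  have hE : ∀ a, avl p l f a = ∑ b, pw p b * f b := by
    intro a
    rw [← sum_avl hp1 l f]
    have : ∀ b, pw p b * avl p l f b = pw p b * avl p l f a := fun b => by rw [hc b a]
    simp only [this]
    rw [← Finset.sum_mul, sum_pw hp1, one_mul]
  rw [← sum_avl hp1 l]
  calc ∑ a, pw p a * avl p l (fun a => Real.exp (-s * f a)) a
      ≤ ∑ a, pw p a * Real.exp (-s * (∑ a, pw p a * f a) + Fintype.card W * s ^ 2) := by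
        refine Finset.sum_le_sum fun a _ => mul_le_mul_of_nonneg_left ?_ (pw_nonneg hp a)
        refine (exp_avl hp hp1 hf hs hs1 l a).trans (le_of_eq ?_)
        rw [hE]
        simp [hl]
    _ = _ := by rw [← Finset.sum_mul, sum_pw hp1, one_mul]

/-- Hamming distance to a set. -/
noncomputable def hd [DecidableEq K] (A : Set (W → K)) (a : W → K) : ℕ :=
  sInf ((fun b => hammingDist a b) '' A)

lemma hd_le [DecidableEq K] {A : Set (W → K)} {a b : W → K} (hb : b ∈ A) :
    hd A a ≤ hammingDist a b := Nat.sInf_le ⟨b, hb, rfl⟩

lemma exists_hd [DecidableEq K] {A : Set (W → K)} (hA : A.Nonempty) (a : W → K) :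
    ∃ b ∈ A, hammingDist a b = hd A a := by
  have := Nat.sInf_mem (hA.image (fun b => hammingDist a b))
  obtain ⟨b, hb, h⟩ := this
  exact ⟨b, hb, h⟩

lemma hammingDist_update [DecidableEq K] (a : W → K) (w : W) (k : K) :
    hammingDist (Function.update a w k) a ≤ 1 := by
  unfold hammingDist
  calc _ ≤ ({w} : Finset W).card := by
        refine Finset.card_le_card fun i hi => ?_
        rw [Finset.mem_filter] at hi
        rw [Finset.mem_singleton]
        by_contra h
        exact hi.2 (Function.update_of_ne h _ _)
    _ = 1 := Finset.card_singleton _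

lemma lip_hd [DecidableEq K] {A : Set (W → K)} (hA : A.Nonempty) :
    Lip (fun a => (hd A a : ℝ)) := by
  intro a w k
  have h1 : hd A (Function.update a w k) ≤ 1 + hd A a := by
    obtain ⟨b, hb, h⟩ := exists_hd hA a
    calc _ ≤ hammingDist (Function.update a w k) b := hd_le hb
      _ ≤ hammingDist (Function.update a w k) a + hammingDist a b := hammingDist_triangle _ _ _
      _ ≤ 1 + hd A a := by rw [h]; exact Nat.add_le_add_right (hammingDist_update a w k) _
  have h2 : hd A a ≤ 1 + hd A (Function.update a w k) := by
    obtain ⟨b, hb, h⟩ := exists_hd hA (Function.update a w k)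
    calc _ ≤ hammingDist a b := hd_le hb
      _ ≤ hammingDist a (Function.update a w k) + hammingDist (Function.update a w k) b :=
        hammingDist_triangle _ _ _
      _ ≤ 1 + hd A (Function.update a w k) := by
        rw [h, hammingDist_comm]; exact Nat.add_le_add_right (hammingDist_update a w k) _
  have h1' : (hd A (Function.update a w k) : ℝ) ≤ 1 + hd A a := by exact_mod_cast h1
  have h2' : (hd A a : ℝ) ≤ 1 + hd A (Function.update a w k) := by exact_mod_cast h2
  rw [abs_le]
  constructor <;> linarith

include hp hp1 in
/-- The blow-up estimate: mean Hamming distance to a set of not too small probability. -/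
theorem mean_hd_le [DecidableEq K] {A : Set (W → K)} [DecidablePred (· ∈ A)] {q : ℝ} (hq : 0 < q)
    (hqA : q ≤ ∑ a with a ∈ A, pw p a) {s : ℝ} (hs : 0 < s) (hs1 : s ≤ 1) :
    ∑ a, pw p a * (hd A a : ℝ) ≤ s * Fintype.card W + Real.log (1 / q) / s := by
  have hA : A.Nonempty := by
    by_contra h
    rw [Set.not_nonempty_iff_eq_empty] at h
    have : ∑ a with a ∈ A, pw p a = 0 := by
      apply Finset.sum_eq_zero
      intro a ha
      rw [Finset.mem_filter, h] at ha
      exact absurd ha.2 (Set.notMem_empty a)
    linarith
  have h1 := exp_moment hp hp1 (lip_hd hA) hs.le hs1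
  have h2 : q ≤ ∑ a, pw p a * Real.exp (-s * (hd A a : ℝ)) := by
    refine hqA.trans ?_
    rw [Finset.sum_filter]
    refine Finset.sum_le_sum fun a _ => ?_
    split_ifs with h
    · have : hd A a = 0 := by
        have := hd_le (a := a) h
        rw [hammingDist_self] at this
        exact Nat.le_zero.1 this
      rw [this]; simp
    · exact mul_nonneg (pw_nonneg hp a) (Real.exp_pos _).le
  have h3 := h2.trans h1
  have h4 : Real.log q ≤ -s * (∑ a, pw p a * (hd A a : ℝ)) + Fintype.card W * s ^ 2 := by
    have := Real.log_le_log hq h3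
    rwa [Real.log_exp] at this
  have h5 : Real.log (1 / q) = - Real.log q := by rw [one_div, Real.log_inv]
  rw [h5]
  have h6 : s * (∑ a, pw p a * (hd A a : ℝ)) ≤ s ^ 2 * Fintype.card W + - Real.log q := by
    linarith
  have h7 : (s * Fintype.card W + -Real.log q / s) * s = s ^ 2 * Fintype.card W + - Real.log q := by
    field_simp
  nlinarith [h6, h7]

end Conc

end MPdc4ce7
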