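import Pool.Agent.Lib.MP_dc4ce7_lc.Code

/-!
Extremality: for most zone patterns and most configurations, the configuration can be imitated
with the prescribed zone pattern.
-/

set_option linter.unusedSectionVars false

namespace MPdc4ce7

open MeasureTheory Set

section Extremal

variable {n : ℕ} {I L : Type*} [MeasurableSpace I] (lam : Measure I) [IsProbabilityMeasure lam]
  [Fintype L] [MeasurableSpace L] [MeasurableSingletonClass L]

include lam in
lemma nonempty_I : Nonempty I := by
  by_contra h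
  rw [not_nonempty_iff] at h
  have : (Set.univ : Set I) = ∅ := Set.eq_empty_of_isEmpty _
  have h1 : lam Set.univ = 1 := measure_univ
  rw [this, measure_empty] at h1
  exact zero_ne_one h1

lemma measurable_decode {K : Type} [Fintype K] {b : I → K}
    (hb : ∀ k, MeasurableSet (b ⁻¹' {k})) {F : Finset (Zn n)} {ψ : (Zn n → K) → L}
    (hF : ∀ β β' : Zn n → K, (∀ u ∈ F, β u = β' u) → ψ β = ψ β') :
    Measurable fun ω : Zn n → I => ψ (fun u => b (ω u)) := by
  let _ : MeasurableSpace K := ⊤
  refine measurable_of_factor (measurable_bt hb F) ?_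
  intro ω ω' h
  refine hF _ _ fun u hu => ?_
  exact congrFun h ⟨u, hu⟩

lemma cnt_eq {K : Type} {φ : (Zn n → I) → L} {b : I → K} {ψ : (Zn n → K) → L}
    (Q : Finset (Zn n)) (ω : Zn n → I) : (cnt φ b ψ Q ω : ENNReal) =
      ∑ u ∈ Q, ({ω | φ ω ≠ ψ (fun f => b (ω f))} : Set (Zn n → I)).indicator 1 (sh u ω) := by
  classical
  unfold cnt dis
  rw [Finset.card_filter]
  push_cast
  refine Finset.sum_congr rfl fun u _ => ?_
  by_cases h : cf φ ω u ≠ ψ fun f => b (sh u ω f)
  · rw [if_pos h, Set.indicator_of_mem (by exact h)]; rfl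
  · rw [if_neg h, Set.indicator_of_notMem (by exact h)]

/-- The main estimate for one cube. -/
theorem lintegral_dd_le {φ : (Zn n → I) → L} (hφ : Measurable φ) {O : Set (Zn n → I)}
    (hO : MeasurableSet O) (hO0 : PP n lam Oᶜ = 0) {K : Type} [Fintype K] {b : I → K}
    (hb : ∀ k, MeasurableSet (b ⁻¹' {k})) {F : Finset (Zn n)} {ψ : (Zn n → K) → L}
    (hF : ∀ β β' : Zn n → K, (∀ u ∈ F, β u = β' u) → ψ β = ψ β') {κ : ℝ} (hκ : 0 < κ)
    (hκ1 : κ ≤ 1)
    (hE : PP n lam {ω | φ ω ≠ ψ (fun u => b (ω u))} ≤ ENNReal.ofReal (κ ^ 2))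
    (Z Q W : Finset (Zn n)) (hW : ∀ u ∈ Q, ∀ f ∈ F, f + u ∈ W) {s : ℝ} (hs : 0 < s)
    (hs1 : s ≤ 1) :
    ∫⁻ ω', ∫⁻ ω, (dd φ O Z Q ω' ω : ENNReal) ∂(PP n lam) ∂(PP n lam) ≤
      ENNReal.ofReal (5 * κ * Q.card + F.card * (s * W.card +
        (Z.card * Real.log (Fintype.card L) + Real.log (1 / κ)) / s)) := by
  classical
  set P := PP n lam with hP
  set E : Set (Zn n → I) := {ω | φ ω ≠ ψ (fun u => b (ω u))} with hEdef
  have hL : Nonempty L := ⟨φ (fun _ => (nonempty_I lam).some)⟩
  have hEm : MeasurableSet E := by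
    have h1 := measurableSet_eq_fun hφ (measurable_decode (L := L) hb hF)
    exact h1.compl
  -- the coding errors
  have hcntm : Measurable fun ω => (cnt φ b ψ Q ω : ENNReal) := by
    have : (fun ω => (cnt φ b ψ Q ω : ENNReal)) = fun ω => ∑ u ∈ Q, E.indicator 1 (sh u ω) := by
      funext ω; exact cnt_eq Q ω
    rw [this]
    refine Finset.measurable_sum _ fun u _ => ?_
    exact (measurable_one.indicator hEm).comp (measurable_sh u)
  have hcnt : ∫⁻ ω, (cnt φ b ψ Q ω : ENNReal) ∂P ≤ ENNReal.ofReal (κ ^ 2) * Q.card := by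
    have : (fun ω => (cnt φ b ψ Q ω : ENNReal)) = fun ω => ∑ u ∈ Q, E.indicator 1 (sh u ω) := by
      funext ω; exact cnt_eq Q ω
    have hm1 : ∀ u ∈ Q, Measurable fun ω : Zn n → I =>
        E.indicator (1 : (Zn n → I) → ENNReal) (sh u ω) :=
      fun u _ => (measurable_one.indicator hEm).comp (measurable_sh u)
    rw [this, lintegral_finsetSum _ hm1]
    calc ∑ u ∈ Q, ∫⁻ ω, E.indicator 1 (sh u ω) ∂P
        = ∑ _u ∈ Q, P E := by
          refine Finset.sum_congr rfl fun u _ => ?_
          have := (measurePreserving_sh (n := n) lam u).lintegral_comp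
            (measurable_one.indicator hEm : Measurable (E.indicator (1 : (Zn n → I) → ENNReal)))
          rw [this, lintegral_indicator_one hEm]
      _ = Q.card * P E := by rw [Finset.sum_const, nsmul_eq_mul]
      _ ≤ Q.card * ENNReal.ofReal (κ ^ 2) := by gcongr
      _ = _ := mul_comm _ _
  -- the good set
  set Gd : Set (Zn n → I) := {ω | (cnt φ b ψ Q ω : ENNReal) ≤ ENNReal.ofReal (κ * Q.card)} with hGd
  have hGdm : MeasurableSet Gd := measurableSet_le hcntm measurable_const
  have hκe : ENNReal.ofReal κ ≠ 0 := by simpa using hκ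
  have hG1 : (Q.card : ENNReal) * P Gdᶜ ≤ ENNReal.ofReal κ * Q.card := by
    have h1 : ENNReal.ofReal (κ * Q.card) * P Gdᶜ ≤ ENNReal.ofReal (κ ^ 2) * Q.card := by
      refine le_trans ?_ hcnt
      refine le_trans ?_ (mul_meas_ge_le_lintegral hcntm (ENNReal.ofReal (κ * Q.card)))
      gcongr
      intro ω hω
      have hω' : ¬ ((cnt φ b ψ Q ω : ENNReal) ≤ ENNReal.ofReal (κ * Q.card)) := hω
      exact (not_le.1 hω').le
    rw [ENNReal.ofReal_mul hκ.le, ENNReal.ofReal_natCast, pow_two, ENNReal.ofReal_mul hκ.le,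
      mul_assoc, mul_assoc] at h1
    exact (ENNReal.mul_le_mul_iff_right hκe ENNReal.ofReal_ne_top).1 h1
  -- the zone patterns
  let T : (Z → L) → Set (Zn n → I) := fun q => {ω | ω ∈ O ∧ ω ∈ Gd ∧ ∀ u : Z, cf φ ω u = q u}
  have hTm : ∀ q, MeasurableSet (T q) := by
    intro q
    have : T q = O ∩ (Gd ∩ ⋂ u : Z, {ω | cf φ ω u = q u}) := by
      ext ω
      simp only [T, Set.mem_ofPred_eq, Set.mem_inter_iff, Set.mem_iInter]
    rw [this]
    refine hO.inter (hGdm.inter (MeasurableSet.iInter fun u => ?_))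
    exact ((measurable_pi_apply (u : Zn n)).comp (measurable_cf hφ))
      (measurableSet_singleton (q u))
  set q0 : ℝ := κ / (Fintype.card L : ℝ) ^ Z.card with hq0def
  have hLpos : (0 : ℝ) < (Fintype.card L : ℝ) ^ Z.card := by
    have : 0 < Fintype.card L := Fintype.card_pos
    positivity
  have hq0 : 0 < q0 := div_pos hκ hLpos
  let Bad : Set (Zn n → I) := ⋃ q ∈ (Finset.univ.filter fun q : Z → L => P (T q) < ENNReal.ofReal q0),
    T q
  have hBadm : MeasurableSet Bad := Finset.measurableSet_biUnion _ fun q _ => hTm q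
  have hBad : P Bad ≤ ENNReal.ofReal κ := by
    calc P Bad ≤ ∑ q ∈ (Finset.univ.filter fun q : Z → L => P (T q) < ENNReal.ofReal q0), P (T q) :=
          measure_biUnion_finset_le _ _
      _ ≤ ∑ _q ∈ (Finset.univ.filter fun q : Z → L => P (T q) < ENNReal.ofReal q0),
            ENNReal.ofReal q0 := by
          refine Finset.sum_le_sum fun q hq => ?_
          exact (Finset.mem_filter.1 hq).2.le
      _ ≤ ∑ _q : Z → L, ENNReal.ofReal q0 :=
          Finset.sum_le_sum_of_subset (Finset.filter_subset _ _)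
      _ = ENNReal.ofReal κ := by
          rw [Finset.sum_const, nsmul_eq_mul, Finset.card_univ, Fintype.card_fun, Fintype.card_coe,
            ← ENNReal.ofReal_natCast, ← ENNReal.ofReal_mul (Nat.cast_nonneg _)]
          congr 1
          rw [hq0def]
          push_cast
          field_simp
  -- the pointwise estimate
  set C : ENNReal := ENNReal.ofReal (2 * κ * Q.card) + F.card *
    ENNReal.ofReal (s * W.card + Real.log (1 / q0) / s) + ENNReal.ofReal κ * Q.card with hC
  have hpoint : ∀ ω, ω ∈ O → ω ∈ Gd → ω ∉ Bad → ∫⁻ ω', (dd φ O Z Q ω' ω : ENNReal) ∂P ≤ C := by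
    intro ω hωO hωG hωB
    set q : Z → L := fun u => cf φ ω u with hq
    have hωT : ω ∈ T q := ⟨hωO, hωG, fun _ => rfl⟩
    have hTq : ENNReal.ofReal q0 ≤ P (T q) := by
      by_contra hcon
      apply hωB
      refine Set.mem_biUnion (x := q) ?_ hωT
      simpa using hcon
    set A : Set (W → K) := bt b W '' (T q) with hA
    have hPA : ENNReal.ofReal q0 ≤ P {ω | bt b W ω ∈ A} :=
      hTq.trans (measure_mono fun ω' hω' => Set.mem_image_of_mem _ hω')
    have hAne : A.Nonempty := ⟨_, Set.mem_image_of_mem _ hωT⟩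
    have h1 := lintegral_hd_le lam hb W A hq0 hPA hs hs1
    have h2 : ∀ ω', (dd φ O Z Q ω' ω : ENNReal) ≤ ENNReal.ofReal (2 * κ * Q.card) +
        (F.card * (hd A (bt b W ω') : ENNReal) + Gdᶜ.indicator (fun _ => (Q.card : ENNReal)) ω') := by
      intro ω'
      by_cases hω' : ω' ∈ Gd
      · rw [Set.indicator_of_notMem (by simpa using hω'), add_zero]
        obtain ⟨a, ha, hda⟩ := exists_hd hAne (bt b W ω')
        obtain ⟨ω'', hω'', rfl⟩ := ha
        have h3 : dd φ O Z Q ω' ω ≤ dis Q (cf φ ω'') (cf φ ω') := by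
          refine dd_le hω''.1 fun u hu => ?_
          exact hω''.2.2 ⟨u, hu⟩
        have h4 := dis_le_cnt φ b ψ F Q W hF hW ω'' ω'
        rw [hammingDist_comm, hda] at h4
        have h5 : dd φ O Z Q ω' ω ≤ cnt φ b ψ Q ω'' + cnt φ b ψ Q ω' + F.card * hd A (bt b W ω') :=
          h3.trans h4
        calc (dd φ O Z Q ω' ω : ENNReal)
            ≤ (cnt φ b ψ Q ω'' + cnt φ b ψ Q ω' + F.card * hd A (bt b W ω') : ℕ) := by
              exact_mod_cast h5
          _ = (cnt φ b ψ Q ω'' : ENNReal) + cnt φ b ψ Q ω' + F.card * hd A (bt b W ω') := by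
              push_cast; rfl
          _ ≤ ENNReal.ofReal (κ * Q.card) + ENNReal.ofReal (κ * Q.card) +
                F.card * hd A (bt b W ω') := by
              gcongr
              · exact hω''.2.1
              · exact hω'
          _ = _ := by
              rw [← ENNReal.ofReal_add (by positivity) (by positivity)]
              congr 2
              ring
      · rw [Set.indicator_of_mem (by simpa using hω')]
        have h3 : (dd φ O Z Q ω' ω : ENNReal) ≤ Q.card := by
          exact_mod_cast dd_le_card hωO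
        refine h3.trans ?_
        rw [← add_assoc]
        exact le_add_self
    have hhdm : Measurable fun ω' : Zn n → I => (F.card : ENNReal) * (hd A (bt b W ω') : ENNReal) := by
      let _ : MeasurableSpace K := ⊤
      exact (measurable_of_countable (fun a : W → K => (F.card : ENNReal) * (hd A a : ENNReal))).comp
        (measurable_bt hb W)
    have hhdm' : Measurable fun ω' : Zn n → I => (hd A (bt b W ω') : ENNReal) := by
      let _ : MeasurableSpace K := ⊤
      exact (measurable_of_countable (fun a : W → K => (hd A a : ENNReal))).comp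
        (measurable_bt hb W)
    calc ∫⁻ ω', (dd φ O Z Q ω' ω : ENNReal) ∂P
        ≤ ∫⁻ ω', (ENNReal.ofReal (2 * κ * Q.card) + (F.card * (hd A (bt b W ω') : ENNReal) +
            Gdᶜ.indicator (fun _ => (Q.card : ENNReal)) ω')) ∂P := lintegral_mono h2
      _ = ENNReal.ofReal (2 * κ * Q.card) + (F.card * ∫⁻ ω', (hd A (bt b W ω') : ENNReal) ∂P +
            Q.card * P Gdᶜ) := by
          rw [lintegral_add_left measurable_const, lintegral_add_left hhdm,
            lintegral_const, measure_univ, mul_one, lintegral_const_mul _ hhdm',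
            lintegral_indicator_const hGdm.compl]
      _ ≤ ENNReal.ofReal (2 * κ * Q.card) + (F.card *
            ENNReal.ofReal (s * W.card + Real.log (1 / q0) / s) + ENNReal.ofReal κ * Q.card) := by
          gcongr
      _ = C := by rw [hC, add_assoc]
  -- joint measurability and Tonelli
  have hjoint : Measurable (Function.uncurry fun ω' ω => (dd φ O Z Q ω' ω : ENNReal)) := by
    refine measurable_of_agree₂ hφ Q Z ?_
    intro ω₁ ω₁' ω₂ ω₂' h1 h2
    rw [dd_congr h1 h2]
  rw [lintegral_lintegral_swap hjoint.aemeasurable]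
  have hae : ∀ᵐ ω ∂P, ∫⁻ ω', (dd φ O Z Q ω' ω : ENNReal) ∂P ≤
      C + (Gdᶜ.indicator (fun _ => (Q.card : ENNReal)) ω +
        Bad.indicator (fun _ => (Q.card : ENNReal)) ω) := by
    have hOae : ∀ᵐ ω ∂P, ω ∈ O := by
      rw [ae_iff]; exact hO0
    filter_upwards [hOae] with ω hωO
    have htriv : ∫⁻ ω', (dd φ O Z Q ω' ω : ENNReal) ∂P ≤ Q.card := by
      calc ∫⁻ ω', (dd φ O Z Q ω' ω : ENNReal) ∂P ≤ ∫⁻ _ω', (Q.card : ENNReal) ∂P := by
            refine lintegral_mono fun ω' => ?_
            have := dd_le_card (φ := φ) (Z := Z) (Q := Q) (ω' := ω') hωO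
            exact Nat.cast_le.2 this
        _ = Q.card := by rw [lintegral_const, measure_univ, mul_one]
    by_cases h1 : ω ∈ Gd
    · by_cases h2 : ω ∈ Bad
      · rw [Set.indicator_of_mem h2]
        refine htriv.trans ?_
        rw [← add_assoc]
        exact le_add_self
      · exact (hpoint ω hωO h1 h2).trans (le_self_add)
    · rw [Set.indicator_of_mem (by simpa using h1 : ω ∈ Gdᶜ)]
      refine htriv.trans ?_
      refine le_trans ?_ (le_add_self)
      exact le_self_add
  calc ∫⁻ ω, ∫⁻ ω', (dd φ O Z Q ω' ω : ENNReal) ∂P ∂P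
      ≤ ∫⁻ ω, (C + (Gdᶜ.indicator (fun _ => (Q.card : ENNReal)) ω +
        Bad.indicator (fun _ => (Q.card : ENNReal)) ω)) ∂P := lintegral_mono_ae hae
    _ = C + (Q.card * P Gdᶜ + Q.card * P Bad) := by
        rw [lintegral_add_left measurable_const,
          lintegral_add_left (measurable_const.indicator hGdm.compl),
          lintegral_const, measure_univ, mul_one, lintegral_indicator_const hGdm.compl,
          lintegral_indicator_const hBadm]
    _ ≤ C + (ENNReal.ofReal κ * Q.card + Q.card * ENNReal.ofReal κ) := by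
        gcongr
    _ = ENNReal.ofReal (5 * κ * Q.card + F.card * (s * W.card +
        (Z.card * Real.log (Fintype.card L) + Real.log (1 / κ)) / s)) := by
        have hlog : Real.log (1 / q0) = Z.card * Real.log (Fintype.card L) + Real.log (1 / κ) := by
          rw [hq0def, one_div_div, Real.log_div hLpos.ne' hκ.ne', Real.log_pow, one_div,
            Real.log_inv]
          ring
        have hlog0 : 0 ≤ Real.log (1 / q0) := by
          rw [hlog]
          have h1 : 0 ≤ Real.log (Fintype.card L) := Real.log_natCast_nonneg _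
          have h2 : 0 ≤ Real.log (1 / κ) := Real.log_nonneg (by rw [le_div_iff₀ hκ]; linarith)
          positivity
        rw [hC, ← hlog]
        have e1 : (Q.card : ENNReal) = ENNReal.ofReal (Q.card : ℝ) := by
          rw [ENNReal.ofReal_natCast]
        have e2 : (F.card : ENNReal) = ENNReal.ofReal (F.card : ℝ) := by
          rw [ENNReal.ofReal_natCast]
        rw [e1, e2, ← ENNReal.ofReal_mul (Nat.cast_nonneg _), ← ENNReal.ofReal_mul hκ.le,
          ← ENNReal.ofReal_mul (Nat.cast_nonneg _)]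
        rw [← ENNReal.ofReal_add (by positivity) (by positivity),
          ← ENNReal.ofReal_add (by positivity) (by positivity),
          ← ENNReal.ofReal_add (by positivity) (by positivity),
          ← ENNReal.ofReal_add (by positivity) (by positivity)]
        congr 1
        ring

open Classical in
/-- The thick boundary zone of the cube `[0,N)^n`. -/
noncomputable def zone (n ρ w N : ℕ) : Finset (Zn n) :=
  box n (-ρ) (N + ρ) \ box n w (N - w)

lemma tendsto_ratio (c : ℝ) (n : ℕ) :
    Filter.Tendsto (fun N : ℕ => (((N : ℝ) + c) ^ n / (N : ℝ) ^ n)) Filter.atTop (nhds 1) := by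
  have h1 : Filter.Tendsto (fun N : ℕ => (1 + c / (N : ℝ)) ^ n) Filter.atTop (nhds 1) := by
    have := (((tendsto_const_div_atTop_nhds_zero_nat c).const_add 1).pow n)
    simpa using this
  refine h1.congr' ?_
  filter_upwards [Filter.eventually_gt_atTop 0] with N hN
  have hN' : (N : ℝ) ≠ 0 := by exact_mod_cast hN.ne'
  rw [← div_pow]
  congr 1
  field_simp

/-- Asymptotic form of the main estimate. -/
theorem exists_N0 {φ : (Zn n → I) → L} (hφ : Measurable φ) {O : Set (Zn n → I)}
    (hO : MeasurableSet O) (hO0 : PP n lam Oᶜ = 0) (hn : 0 < n) (ρ w : ℕ) {η : ℝ} (hη : 0 < η) :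
    ∃ N0 : ℕ, ∀ N : ℕ, N0 ≤ N →
      ∫⁻ ω', ∫⁻ ω, (dd φ O (zone n ρ w N) (box n (-ρ) (N + ρ)) ω' ω : ENNReal)
        ∂(PP n lam) ∂(PP n lam) ≤ ENNReal.ofReal (η * (N : ℝ) ^ n) := by
  classical
  have hL : Nonempty L := ⟨φ (fun _ => (nonempty_I lam).some)⟩
  set κ : ℝ := min 1 (η / 20) with hκdef
  have hκ : 0 < κ := lt_min one_pos (by positivity)
  have hκ1 : κ ≤ 1 := min_le_left _ _
  have hκη : 5 * κ ≤ η / 4 := by
    have : κ ≤ η / 20 := min_le_right _ _
    linarith
  obtain ⟨K, _, b, F, ψ, hb, hF, hE⟩ := exists_code (P := PP n lam) hφ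
    (κ := ENNReal.ofReal (κ ^ 2)) (by rw [ENNReal.ofReal_pos]; positivity)
  set R : ℕ := F.sup nm with hR
  have hFR : ∀ f ∈ F, nm f ≤ R := fun f hf => Finset.le_sup (f := nm) hf
  set s : ℝ := min 1 (η / (4 * (F.card + 1))) with hsdef
  have hs : 0 < s := lt_min one_pos (by positivity)
  have hs1 : s ≤ 1 := min_le_left _ _
  have hFs : F.card * s ≤ η / 4 := by
    have h1 : s ≤ η / (4 * (F.card + 1)) := min_le_right _ _
    calc (F.card : ℝ) * s ≤ (F.card + 1) * (η / (4 * (F.card + 1))) := by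
          gcongr
          linarith
      _ = η / 4 := by field_simp
  -- the limit of the bound
  set a1 : ℕ → ℝ := fun N => ((N : ℝ) + 2 * ρ) ^ n / (N : ℝ) ^ n with ha1
  set a2 : ℕ → ℝ := fun N => ((N : ℝ) + 2 * (ρ + R)) ^ n / (N : ℝ) ^ n with ha2
  set a3 : ℕ → ℝ := fun N => ((N : ℝ) + -(2 * w)) ^ n / (N : ℝ) ^ n with ha3
  have hl1 : Filter.Tendsto a1 Filter.atTop (nhds 1) := tendsto_ratio _ n
  have hl2 : Filter.Tendsto a2 Filter.atTop (nhds 1) := tendsto_ratio _ n
  have hl3 : Filter.Tendsto a3 Filter.atTop (nhds 1) := tendsto_ratio _ n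
  have hl4 : Filter.Tendsto (fun N : ℕ => Real.log (1 / κ) / (N : ℝ) ^ n) Filter.atTop (nhds 0) := by
    have h1 : Filter.Tendsto (fun N : ℕ => (N : ℝ) ^ n) Filter.atTop Filter.atTop :=
      (Filter.tendsto_pow_atTop hn.ne').comp tendsto_natCast_atTop_atTop
    exact h1.const_div_atTop _
  have hlim : Filter.Tendsto (fun N : ℕ => 5 * κ * a1 N + F.card * (s * a2 N +
      ((a1 N - a3 N) * Real.log (Fintype.card L) + Real.log (1 / κ) / (N : ℝ) ^ n) / s))
      Filter.atTop (nhds (5 * κ * 1 + F.card * (s * 1 +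
      ((1 - 1) * Real.log (Fintype.card L) + 0) / s))) := by
    refine (hl1.const_mul _).add (((hl2.const_mul _).add ?_).const_mul _)
    exact (((hl1.sub hl3).mul_const _).add hl4).div_const _
  have hlt : 5 * κ * 1 + F.card * (s * 1 + ((1 - 1) * Real.log (Fintype.card L) + 0) / s) < η := by
    have : (5 * κ * 1 + F.card * (s * 1 + ((1 - 1) * Real.log (Fintype.card L) + 0) / s)) =
      5 * κ + F.card * s := by simp
    rw [this]
    linarith
  have hev := hlim.eventually (gt_mem_nhds hlt)
  obtain ⟨N1, hN1⟩ := Filter.eventually_atTop.1 hev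
  refine ⟨max N1 (2 * w + 1), fun N hN => ?_⟩
  have hN1' := hN1 N (le_trans (le_max_left _ _) hN)
  have hNw : 2 * w + 1 ≤ N := le_trans (le_max_right _ _) hN
  set Q := box n (-(ρ : ℤ)) (N + ρ) with hQ
  set W := box n (-((ρ + R : ℕ) : ℤ)) (N + (ρ + R : ℕ)) with hWdef
  have hW : ∀ u ∈ Q, ∀ f ∈ F, f + u ∈ W := by
    intro u hu f hf
    have h1 := mem_box.1 hu
    have h2 := nm_le.1 (hFR f hf)
    rw [hWdef, mem_box]
    intro i
    have h3 := h1 i
    have h4 := h2 i
    simp only [Pi.add_apply]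
    push_cast
    omega
  have hmain := lintegral_dd_le lam hφ hO hO0 hb hF hκ hκ1 hE (zone n ρ w N) Q W hW hs hs1
  refine hmain.trans (ENNReal.ofReal_le_ofReal ?_)
  have hNpos : (0 : ℝ) < N := by
    have : 0 < N := by omega
    exact_mod_cast this
  have hNn : (0 : ℝ) < (N : ℝ) ^ n := by positivity
  have cQ : (Q.card : ℝ) = a1 N * (N : ℝ) ^ n := by
    rw [hQ, card_box, ha1]
    have : (((N : ℤ) + ρ) - (-(ρ : ℤ))).toNat = N + 2 * ρ := by omega
    rw [this]
    push_cast
    field_simp
  have cW : (W.card : ℝ) = a2 N * (N : ℝ) ^ n := by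
    rw [hWdef, card_box, ha2]
    have : (((N : ℤ) + (ρ + R : ℕ)) - (-((ρ + R : ℕ) : ℤ))).toNat = N + 2 * (ρ + R) := by omega
    rw [this]
    push_cast
    field_simp
  have cZ : ((zone n ρ w N).card : ℝ) = (a1 N - a3 N) * (N : ℝ) ^ n := by
    have hsub : box n (w : ℤ) (N - w) ⊆ box n (-(ρ : ℤ)) (N + ρ) := by
      intro v hv
      rw [mem_box] at hv ⊢
      intro i
      have := hv i
      omega
    have h1 := Finset.card_sdiff_add_card_eq_card hsub
    have h2 : (box n (w : ℤ) (N - w)).card = (N - 2 * w) ^ n := by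
      rw [card_box]
      congr 1
      omega
    have h3 : ((zone n ρ w N).card : ℝ) + ((N : ℝ) - 2 * w) ^ n = Q.card := by
      have h4 : (zone n ρ w N).card + (N - 2 * w) ^ n = Q.card := by
        rw [← h2]
        exact h1
      rw [← h4]
      push_cast
      rw [Nat.cast_sub (by omega)]
      push_cast
      ring
    have h5 : a3 N * (N : ℝ) ^ n = ((N : ℝ) - 2 * w) ^ n := by
      rw [ha3]
      field_simp
      ring
    rw [sub_mul, h5, ← cQ]
    linarith
  rw [cQ, cW, cZ]
  have e : 5 * κ * (a1 N * (N : ℝ) ^ n) + F.card * (s * (a2 N * (N : ℝ) ^ n) +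
      ((a1 N - a3 N) * (N : ℝ) ^ n * Real.log (Fintype.card L) + Real.log (1 / κ)) / s) =
      (5 * κ * a1 N + F.card * (s * a2 N + ((a1 N - a3 N) * Real.log (Fintype.card L) +
        Real.log (1 / κ) / (N : ℝ) ^ n) / s)) * (N : ℝ) ^ n := by
    field_simp
  rw [e]
  exact mul_le_mul_of_nonneg_right hN1'.le hNn.le

end Extremal

end MPdc4ce7
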