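import Pool.Agent.Lib.MP_dc4ce7_lc.Step

/-!
The limit of the construction: a factor of iid solution yields a measurable solution on every
free Borel action and every Borel probability measure.
-/

set_option linter.unusedSectionVars false

namespace MPdc4ce7

open MeasureTheory Set

section

variable {n : ℕ} {I L : Type*} [MeasurableSpace I] [Fintype L] [MeasurableSpace L]
  [MeasurableSingletonClass L] (S : Setup n I L) {Y : Type*} [MeasurableSpace Y]
  [AddAction (Zn n) Y]

/-- The average of the translates of a measure. -/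
noncomputable def avm (B : Finset (Zn n)) (ν : Measure Y) : Measure Y :=
  (B.card : ENNReal)⁻¹ • ∑ v ∈ B, ν.map (fun y => v +ᵥ y)

lemma avm_prob (hmeas : ∀ v : Zn n, Measurable fun y : Y => v +ᵥ y) {B : Finset (Zn n)}
    (hB : B.Nonempty) (ν : Measure Y) [IsProbabilityMeasure ν] :
    IsProbabilityMeasure (avm B ν) := by
  constructor
  unfold avm
  rw [Measure.smul_apply, Measure.finsetSum_apply]
  have : ∀ v ∈ B, (ν.map (fun y => v +ᵥ y)) Set.univ = 1 := by
    intro v _
    rw [Measure.map_apply (hmeas v) MeasurableSet.univ, Set.preimage_univ, measure_univ]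
  rw [Finset.sum_congr rfl this, Finset.sum_const, nsmul_eq_mul, mul_one, smul_eq_mul]
  refine ENNReal.inv_mul_cancel ?_ (ENNReal.natCast_ne_top _)
  exact_mod_cast (Finset.card_pos.2 hB).ne'

lemma map_le_avm {B : Finset (Zn n)} (ν : Measure Y) {v : Zn n} (hv : v ∈ B) :
    ν.map (fun y => v +ᵥ y) ≤ (B.card : ENNReal) • avm B ν := by
  have hne : (B.card : ENNReal) ≠ 0 := by
    exact_mod_cast (Finset.card_pos.2 ⟨v, hv⟩).ne'
  unfold avm
  rw [smul_smul, ENNReal.mul_inv_cancel hne (ENNReal.natCast_ne_top _), one_smul]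
  intro A
  rw [Measure.finsetSum_apply]
  exact Finset.single_le_sum (f := fun v => (ν.map (fun y => v +ᵥ y)) A)
    (fun _ _ => zero_le) hv

/-- A factor of iid solution yields a measurable solution on every free Borel action. -/
theorem exists_solution [StandardBorelSpace Y] (hn : 0 < n)
    (hmeas : ∀ v : Zn n, Measurable fun y : Y => v +ᵥ y)
    (hfree : ∀ (v : Zn n) (y : Y), v +ᵥ y = y → v = 0) (ν : Measure Y)
    [IsProbabilityMeasure ν] :
    ∃ g : Y → L, Measurable g ∧ ∀ᵐ y ∂ν, S.ok (fun v => g (v +ᵥ y)) := by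
  classical
  have hL : Nonempty L := ⟨S.φ (fun _ => (nonempty_I S.lam).some)⟩
  set B := box n (-(S.r : ℤ)) (S.r + 1) with hB
  have h0B : (0 : Zn n) ∈ B := by
    rw [hB, mem_box]; intro i; simp
  have hBne : B.Nonempty := ⟨0, h0B⟩
  have := avm_prob hmeas hBne ν
  set ν' := avm B ν with hν'
  let e : ℕ → ENNReal := fun k => (2 : ENNReal)⁻¹ ^ k
  have he0 : ∀ k, 0 < e k := fun k => ENNReal.pow_pos (by simp) k
  have het : ∀ k, e k ≠ ⊤ := fun k => ENNReal.pow_ne_top (by simp)
  -- the sequence
  have hstep : ∀ (k : ℕ) (s : {p : Rule S Y × (Y → L) // Measurable p.2}),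
      ∃ s' : {p : Rule S Y × (Y → L) // Measurable p.2},
        Err S ν' s'.1.1 s'.1.2 ≤ e k ∧ ν' {y | ¬ S.ok (fun v => s'.1.2 (v +ᵥ y))} ≤ e k ∧
        ν' {y | s'.1.2 y ≠ s.1.2 y} ≤ 4 * Err S ν' s.1.1 s.1.2 + e k := by
    intro k s
    obtain ⟨R', g', hg', h1, h2, h3⟩ := step S hn hmeas hfree ν' s.1.1 s.2 (he0 k) (het k)
    exact ⟨⟨(R', g'), hg'⟩, h1, h2, h3⟩
  choose nxt hn1 hn2 hn3 using hstep
  let seq : ℕ → {p : Rule S Y × (Y → L) // Measurable p.2} := fun k =>
    Nat.rec ⟨(trivRule S, fun _ => Classical.arbitrary L), measurable_const⟩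
      (fun k s => nxt k s) k
  have hseq : ∀ k, seq (k + 1) = nxt k (seq k) := fun k => rfl
  let h : ℕ → Y → L := fun k => (seq (k + 1)).1.2
  have hhm : ∀ k, Measurable (h k) := fun k => (seq (k + 1)).2
  have hErr : ∀ k, Err S ν' (seq (k + 1)).1.1 (seq (k + 1)).1.2 ≤ e k := by
    intro k; rw [hseq]; exact hn1 k (seq k)
  have hOk : ∀ k, ν' {y | ¬ S.ok (fun v => h k (v +ᵥ y))} ≤ e k := by
    intro k; exact hn2 k (seq k)
  have hD : ∀ k, ν' {y | h (k + 1) y ≠ h k y} ≤ 5 * e k := by
    intro k
    have h1 : ν' {y | h (k + 1) y ≠ h k y} ≤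
        4 * Err S ν' (seq (k + 1)).1.1 (seq (k + 1)).1.2 + e (k + 1) := hn3 (k + 1) (seq (k + 1))
    calc _ ≤ 4 * Err S ν' (seq (k + 1)).1.1 (seq (k + 1)).1.2 + e (k + 1) := h1
      _ ≤ 4 * e k + e k := by
          refine add_le_add (mul_le_mul_right (hErr k) 4) ?_
          change (2 : ENNReal)⁻¹ ^ (k + 1) ≤ (2 : ENNReal)⁻¹ ^ k
          rw [pow_succ]
          calc (2 : ENNReal)⁻¹ ^ k * (2 : ENNReal)⁻¹ ≤ (2 : ENNReal)⁻¹ ^ k * 1 := by
                gcongr
                simp
            _ = (2 : ENNReal)⁻¹ ^ k := mul_one _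
      _ = 5 * e k := by ring
  have hsum : ∑' k, e k ≠ ⊤ := by
    change ∑' k, (2 : ENNReal)⁻¹ ^ k ≠ ⊤
    rw [ENNReal.tsum_geometric]
    simp [ENNReal.one_sub_inv_two]
  -- bad sets for `ν`
  have hle : ∀ v ∈ B, ∀ A : Set Y, MeasurableSet A → ν {y | v +ᵥ y ∈ A} ≤ B.card * ν' A := by
    intro v hv A hA
    have h1 := map_le_avm ν hv A
    rw [Measure.map_apply (hmeas v) hA] at h1
    exact h1
  have hle0 : ∀ A : Set Y, ν A ≤ B.card * ν' A := by
    intro A
    have h1 := map_le_avm ν h0B A
    have h2 : ν.map (fun y : Y => (0 : Zn n) +ᵥ y) = ν := by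
      have : (fun y : Y => (0 : Zn n) +ᵥ y) = id := by funext y; simp
      rw [this, Measure.map_id]
    rw [h2] at h1
    exact h1
  have hs1 : ∀ᵐ y ∂ν, ∀ᶠ k in Filter.atTop,
      y ∉ {y | ∃ v ∈ B, h (k + 1) (v +ᵥ y) ≠ h k (v +ᵥ y)} := by
    refine ae_eventually_notMem ?_
    have hb : ∀ k, ν {y | ∃ v ∈ B, h (k + 1) (v +ᵥ y) ≠ h k (v +ᵥ y)} ≤
        (B.card * (B.card * 5)) * e k := by
      intro k
      calc ν {y | ∃ v ∈ B, h (k + 1) (v +ᵥ y) ≠ h k (v +ᵥ y)}
          ≤ ν (⋃ v ∈ B, {y | v +ᵥ y ∈ {y | h (k + 1) y ≠ h k y}}) := by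
            refine measure_mono ?_
            rintro y ⟨v, hv, hy⟩
            exact Set.mem_biUnion hv hy
        _ ≤ ∑ v ∈ B, ν {y | v +ᵥ y ∈ {y | h (k + 1) y ≠ h k y}} :=
            measure_biUnion_finset_le _ _
        _ ≤ ∑ _v ∈ B, (B.card : ENNReal) * (5 * e k) := by
            refine Finset.sum_le_sum fun v hv => ?_
            refine (hle v hv _ (measurableSet_eq_fun (hhm (k + 1)) (hhm k)).compl).trans ?_
            exact mul_le_mul_right (hD k) _
        _ = (B.card * (B.card * 5)) * e k := by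
            rw [Finset.sum_const, nsmul_eq_mul]; ring
    refine ne_top_of_le_ne_top ?_ (ENNReal.tsum_le_tsum hb)
    rw [ENNReal.tsum_mul_left]
    refine ENNReal.mul_ne_top ?_ hsum
    exact ENNReal.mul_ne_top (ENNReal.natCast_ne_top _)
      (ENNReal.mul_ne_top (ENNReal.natCast_ne_top _) (by norm_num))
  have hs2 : ∀ᵐ y ∂ν, ∀ᶠ k in Filter.atTop, y ∉ {y | ¬ S.ok (fun v => h k (v +ᵥ y))} := by
    refine ae_eventually_notMem ?_
    have hb : ∀ k, ν {y | ¬ S.ok (fun v => h k (v +ᵥ y))} ≤ B.card * e k := by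
      intro k
      exact (hle0 _).trans (mul_le_mul_right (hOk k) _)
    refine ne_top_of_le_ne_top ?_ (ENNReal.tsum_le_tsum hb)
    rw [ENNReal.tsum_mul_left]
    exact ENNReal.mul_ne_top (ENNReal.natCast_ne_top _) hsum
  -- the limit
  let E : L → Set Y := fun l => {y | ∀ᶠ k in Filter.atTop, h k y = l}
  have hEm : ∀ l, MeasurableSet (E l) := by
    intro l
    have : E l = ⋃ K : ℕ, ⋂ k : ℕ, {y | K ≤ k → h k y = l} := by
      ext y
      simp only [E, Set.mem_ofPred_eq, Filter.eventually_atTop, Set.mem_iUnion, Set.mem_iInter]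
    rw [this]
    refine MeasurableSet.iUnion fun K => MeasurableSet.iInter fun k => ?_
    by_cases hK : K ≤ k
    · have : {y | K ≤ k → h k y = l} = h k ⁻¹' {l} := by
        ext y; simp [hK]
      rw [this]
      exact hhm k (measurableSet_singleton l)
    · have : {y | K ≤ k → h k y = l} = Set.univ := by
        ext y; simp [hK]
      rw [this]
      exact MeasurableSet.univ
  have hEuniq : ∀ y l l', y ∈ E l → y ∈ E l' → l = l' := by
    intro y l l' h1 h2
    obtain ⟨k, h3, h4⟩ := (Filter.Eventually.and h1 h2).exists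
    exact h3.symm.trans h4
  let g : Y → L := fun y => if hy : ∃ l, y ∈ E l then hy.choose else Classical.arbitrary L
  have hgE : ∀ y l, y ∈ E l → g y = l := by
    intro y l hy
    have hex : ∃ l, y ∈ E l := ⟨l, hy⟩
    change (if hy : ∃ l, y ∈ E l then hy.choose else Classical.arbitrary L) = l
    rw [dif_pos hex]
    exact hEuniq y _ _ hex.choose_spec hy
  have hgm : Measurable g := by
    refine measurable_to_countable' fun l => ?_
    by_cases hl : l = Classical.arbitrary L
    · have : g ⁻¹' {l} = E l ∪ (⋃ l', E l')ᶜ := by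
        ext y
        simp only [Set.mem_preimage, Set.mem_singleton_iff, Set.mem_union, Set.mem_compl_iff,
          Set.mem_iUnion]
        constructor
        · intro hy
          by_cases hex : ∃ l, y ∈ E l
          · left
            obtain ⟨l', hl'⟩ := hex
            have := hgE y l' hl'
            rw [← hy, this]
            exact hl'
          · exact Or.inr hex
        · rintro (hy | hy)
          · exact hgE y l hy
          · change (if hy : ∃ l, y ∈ E l then hy.choose else Classical.arbitrary L) = l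
            rw [dif_neg hy, hl]
      rw [this]
      exact (hEm l).union (MeasurableSet.iUnion hEm).compl
    · have : g ⁻¹' {l} = E l := by
        ext y
        simp only [Set.mem_preimage, Set.mem_singleton_iff]
        constructor
        · intro hy
          by_cases hex : ∃ l, y ∈ E l
          · obtain ⟨l', hl'⟩ := hex
            have := hgE y l' hl'
            rw [← hy, this]
            exact hl'
          · exfalso
            apply hl
            rw [← hy]
            change (if hy : ∃ l, y ∈ E l then hy.choose else Classical.arbitrary L) = _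
            rw [dif_neg hex]
        · exact hgE y l
      rw [this]
      exact hEm l
  refine ⟨g, hgm, ?_⟩
  filter_upwards [hs1, hs2] with y hy1 hy2
  obtain ⟨K, hK⟩ := Filter.eventually_atTop.1 (hy1.and hy2)
  have hconst : ∀ k, K ≤ k → ∀ v ∈ B, h k (v +ᵥ y) = h K (v +ᵥ y) := by
    intro k hk
    induction k, hk using Nat.le_induction with
    | base => intro v _; rfl
    | succ k hk ih =>
      intro v hv
      have h1 := (hK k hk).1
      simp only [not_exists, not_and, not_not] at h1
      rw [h1 v hv, ih v hv]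
  have hlim : ∀ v ∈ B, g (v +ᵥ y) = h K (v +ᵥ y) := by
    intro v hv
    refine hgE _ _ ?_
    exact Filter.eventually_atTop.2 ⟨K, fun k hk => hconst k hk v hv⟩
  have hokK : S.ok (fun v => h K (v +ᵥ y)) := by
    have := (hK K le_rfl).2
    simpa using this
  exact S.hok _ _ (fun v hv => (hlim v hv).symm) hokK

end

end MPdc4ce7
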