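import Mathlib

/-!
Borel markers for free Borel actions of `ℤ^n`, and partial tilings by cubes with a random
offset.
-/

set_option linter.unusedSectionVars false

namespace MPdc4ce7

open MeasureTheory Set

/-- The group `ℤ^n`. -/
abbrev Zn (n : ℕ) := Fin n → ℤ

/-- The box `[a,b)^n`. -/
noncomputable def box (n : ℕ) (a b : ℤ) : Finset (Zn n) := Fintype.piFinset fun _ : Fin n => Finset.Ico a b

lemma mem_box {n : ℕ} {a b : ℤ} {v : Zn n} : v ∈ box n a b ↔ ∀ i, a ≤ v i ∧ v i < b := by
  simp [box]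

lemma card_box (n : ℕ) (a b : ℤ) : (box n a b).card = (b - a).toNat ^ n := by
  simp [box]

/-- The sup norm. -/
noncomputable def nm {n : ℕ} (v : Zn n) : ℕ := Finset.univ.sup fun i => (v i).natAbs

lemma nm_le {n : ℕ} {v : Zn n} {R : ℕ} : nm v ≤ R ↔ ∀ i, (v i).natAbs ≤ R := by
  simp [nm, Finset.sup_le_iff]

lemma nm_le' {n : ℕ} {v : Zn n} {R : ℕ} : nm v ≤ R ↔ v ∈ box n (-R) (R + 1) := by
  rw [nm_le, mem_box]
  refine forall_congr' fun i => ?_
  omega

lemma nm_sub_le {n : ℕ} (v w : Zn n) : nm (v - w) ≤ nm v + nm w := by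
  rw [nm_le]
  intro i
  have h1 := (nm_le (v := v)).1 le_rfl i
  have h2 := (nm_le (v := w)).1 le_rfl i
  simp only [Pi.sub_apply]
  omega

lemma nm_zero {n : ℕ} : nm (0 : Zn n) = 0 := by
  have : nm (0 : Zn n) ≤ 0 := by rw [nm_le]; intro i; simp
  omega

lemma nm_neg {n : ℕ} (v : Zn n) : nm (-v) = nm v := by
  unfold nm
  simp

section Discrete

variable {n : ℕ} {Y : Type*} [MeasurableSpace Y] [StandardBorelSpace Y] [AddAction (Zn n) Y]

/-- Borel maximal discrete sets. -/
theorem exists_maximal_discrete (hmeas : ∀ v : Zn n, Measurable fun y : Y => v +ᵥ y)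
    (hfree : ∀ (v : Zn n) (y : Y), v +ᵥ y = y → v = 0) (D : Finset (Zn n)) (h0 : (0 : Zn n) ∉ D)
    (hsymm : ∀ d ∈ D, -d ∈ D) :
    ∃ M : Set Y, MeasurableSet M ∧ (∀ y ∈ M, ∀ d ∈ D, d +ᵥ y ∉ M) ∧
      ∀ y, y ∈ M ∨ ∃ d ∈ D, d +ᵥ y ∈ M := by
  classical
  obtain ⟨f, hf, hinj⟩ := MeasurableSpace.measurable_injection_nat_bool_of_countablySeparated Y
  -- the cover by discrete sets
  let ag : (Σ l : ℕ, (Fin l → Bool)) → Y → Prop := fun p y => ∀ i : Fin p.1, f y i = p.2 i
  let B' : (Σ l : ℕ, (Fin l → Bool)) → Set Y := fun p =>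
    {y | ag p y ∧ ∀ d ∈ D, ¬ ag p (d +ᵥ y)}
  have hagm : ∀ p, MeasurableSet {y | ag p y} := by
    intro p
    have : {y | ag p y} = ⋂ i : Fin p.1, {y | f y i = p.2 i} := by
      ext y; simp [ag]
    rw [this]
    refine MeasurableSet.iInter fun i => ?_
    exact ((measurable_pi_apply (i : ℕ)).comp hf) (measurableSet_singleton (p.2 i))
  have hB'm : ∀ p, MeasurableSet (B' p) := by
    intro p
    have : B' p = {y | ag p y} ∩ ⋂ d ∈ D, ((fun y => d +ᵥ y) ⁻¹' {y | ag p y})ᶜ := by
      ext y; simp [B']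
    rw [this]
    exact (hagm p).inter (Finset.measurableSet_biInter _ fun d _ => (hmeas d (hagm p)).compl)
  have hcover : ∀ y, ∃ p, y ∈ B' p := by
    intro y
    have h1 : ∀ d : Zn n, ∃ i, d ∈ D → f (d +ᵥ y) i ≠ f y i := by
      intro d
      by_cases hd : d ∈ D
      · have hne : f (d +ᵥ y) ≠ f y := by
          intro h
          have := hfree d y (hinj h)
          exact h0 (this ▸ hd)
        obtain ⟨i, hi⟩ := Function.ne_iff.1 hne
        exact ⟨i, fun _ => hi⟩
      · exact ⟨0, fun h => absurd h hd⟩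
    choose i hi using h1
    refine ⟨⟨D.sup i + 1, fun j => f y j⟩, fun j => rfl, fun d hd hag => ?_⟩
    have hlt : i d < D.sup i + 1 := Nat.lt_succ_of_le (Finset.le_sup hd)
    exact hi d hd (hag ⟨i d, hlt⟩)
  have hdisc : ∀ p, ∀ y ∈ B' p, ∀ d ∈ D, d +ᵥ y ∉ B' p := by
    intro p y hy d hd h
    exact hy.2 d hd h.1
  have : Nonempty (Σ l : ℕ, (Fin l → Bool)) := ⟨⟨0, fun i => i.elim0⟩⟩
  obtain ⟨e, he⟩ := exists_surjective_nat (Σ l : ℕ, (Fin l → Bool))
  let B : ℕ → Set Y := fun i => B' (e i)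
  let M : ℕ → Set Y := fun i => Nat.rec ∅ (fun i S => S ∪ {y | y ∈ B i ∧ ∀ d ∈ D, d +ᵥ y ∉ S}) i
  have hM0 : M 0 = ∅ := rfl
  have hMs : ∀ i, M (i + 1) = M i ∪ {y | y ∈ B i ∧ ∀ d ∈ D, d +ᵥ y ∉ M i} := fun i => rfl
  have hMm : ∀ i, MeasurableSet (M i) := by
    intro i
    induction i with
    | zero => rw [hM0]; exact MeasurableSet.empty
    | succ i ih =>
      rw [hMs]
      refine ih.union ?_
      have : {y | y ∈ B i ∧ ∀ d ∈ D, d +ᵥ y ∉ M i} =
          B i ∩ ⋂ d ∈ D, ((fun y => d +ᵥ y) ⁻¹' (M i))ᶜ := by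
        ext y; simp
      rw [this]
      exact (hB'm _).inter (Finset.measurableSet_biInter _ fun d _ => (hmeas d ih).compl)
  have hMd : ∀ i, ∀ y ∈ M i, ∀ d ∈ D, d +ᵥ y ∉ M i := by
    intro i
    induction i with
    | zero => intro y hy; rw [hM0] at hy; exact absurd hy (Set.notMem_empty y)
    | succ i ih =>
      rw [hMs]
      rintro y (hy | hy) d hd (h | h)
      · exact ih y hy d hd h
      · have := h.2 (-d) (hsymm d hd)
        rw [neg_vadd_vadd] at this
        exact this hy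
      · exact hy.2 d hd h
      · exact hdisc _ y hy.1 d hd h.1
  have hmono : Monotone M := monotone_nat_of_le_succ fun i => by
    rw [hMs]; exact Set.subset_union_left
  refine ⟨⋃ i, M i, MeasurableSet.iUnion hMm, ?_, ?_⟩
  · intro y hy d hd h
    obtain ⟨i, hi⟩ := Set.mem_iUnion.1 hy
    obtain ⟨j, hj⟩ := Set.mem_iUnion.1 h
    exact hMd (max i j) y (hmono (le_max_left i j) hi) d hd (hmono (le_max_right i j) hj)
  · intro y
    obtain ⟨p, hp⟩ := hcover y
    obtain ⟨i, rfl⟩ := he p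
    rcases Classical.em (∀ d : Zn n, d ∈ D → d +ᵥ y ∉ M i) with h | h
    · left
      exact Set.mem_iUnion.2 ⟨i + 1, by rw [hMs]; exact Or.inr ⟨hp, h⟩⟩
    · push Not at h
      obtain ⟨d, hd, h⟩ := h
      exact Or.inr ⟨d, hd, Set.mem_iUnion.2 ⟨i, h⟩⟩

end Discrete

section Anchor

open Classical in
/-- The markers seen within distance `R`. -/
noncomputable def seen {n : ℕ} {Y : Type*} [AddAction (Zn n) Y] (M : Set Y) (R : ℕ) (y : Y) :
    Finset (Zn n) := (box n (-R) (R + 1)).filter fun u => u +ᵥ y ∈ M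

open Classical in
/-- Coordinatewise minimum of a finite set. -/
noncomputable def cmin {n : ℕ} (S : Finset (Zn n)) : Zn n := fun i =>
  if h : S.Nonempty then S.inf' h (fun u => u i) else 0

variable {n : ℕ} {Y : Type*} [AddAction (Zn n) Y]

lemma mem_seen {M : Set Y} {R : ℕ} {y : Y} {u : Zn n} :
    u ∈ seen M R y ↔ nm u ≤ R ∧ u +ᵥ y ∈ M := by
  classical
  rw [seen, Finset.mem_filter, nm_le']

lemma cmin_shift {S T : Finset (Zn n)} {u : Zn n} (hS : S.Nonempty)
    (h : ∀ w, w ∈ S ↔ w + u ∈ T) : cmin S + u = cmin T := by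
  classical
  have hT : T.Nonempty := by
    obtain ⟨w, hw⟩ := hS
    exact ⟨w + u, (h w).1 hw⟩
  have h' : ∀ w, w ∈ T → w - u ∈ S := by
    intro w hw
    rw [h, sub_add_cancel]; exact hw
  funext i
  simp only [Pi.add_apply, cmin, dif_pos hS, dif_pos hT]
  apply le_antisymm
  · rw [Finset.le_inf'_iff]
    intro w hw
    have := Finset.inf'_le (fun u : Zn n => u i) (h' w hw)
    simp only [Pi.sub_apply] at this
    linarith
  · obtain ⟨w, hw, hwe⟩ := Finset.exists_mem_eq_inf' hS (fun u : Zn n => u i)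
    rw [hwe]
    exact Finset.inf'_le (fun u : Zn n => u i) ((h w).1 hw)

/-- If no marker is at distance in `(R-N, R+N]`, the anchor is locally constant. -/
lemma anchor_const {M : Set Y} {R N : ℕ} {y : Y}
    (hne : ∀ y : Y, (seen (n := n) M R y).Nonempty)
    (h : ∀ m : Zn n, m +ᵥ y ∈ M → ¬ (R < nm m + N ∧ nm m ≤ R + N)) {u : Zn n} (hu : nm u ≤ N) :
    cmin (seen M R (u +ᵥ y)) + u = cmin (seen M R y) := by
  refine cmin_shift (hne _) fun w => ?_
  rw [mem_seen, mem_seen, vadd_vadd]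
  constructor
  · rintro ⟨h1, h2⟩
    refine ⟨?_, h2⟩
    by_contra hc
    have h3 := h _ h2
    have h4 : nm (w + u) ≤ nm w + nm u := by
      have := nm_sub_le w (-u)
      rwa [sub_neg_eq_add, nm_neg] at this
    omega
  · rintro ⟨h1, h2⟩
    refine ⟨?_, h2⟩
    have h3 := h _ h2
    have h4 : nm w ≤ nm (w + u) + nm u := by
      have := nm_sub_le (w + u) u
      rwa [add_sub_cancel_right] at this
    omega

/-- Packing bound. -/
lemma card_seen_le {M : Set Y} {r : ℕ} (hr : 0 < r)
    (hM : ∀ y ∈ M, ∀ d : Zn n, d ≠ 0 → nm d ≤ r → d +ᵥ y ∉ M) (y : Y) :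
    (seen (n := n) M (3 * r) y).card ≤ 7 ^ n := by
  classical
  have : (box n (-3) 4).card = 7 ^ n := by
    rw [card_box]
    have : ((4 : ℤ) - (-3)).toNat = 7 := by decide
    rw [this]
  rw [← this]
  have hr' : (0 : ℤ) < r := by exact_mod_cast hr
  refine Finset.card_le_card_of_injOn (fun u => fun i => u i / (r : ℤ)) ?_ ?_
  · intro u hu
    have h1 := (mem_seen.1 (Finset.mem_coe.1 hu)).1
    rw [nm_le] at h1
    rw [Finset.mem_coe, mem_box]
    intro i
    have := h1 i
    constructor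
    · rw [Int.le_ediv_iff_mul_le hr']
      omega
    · rw [Int.ediv_lt_iff_lt_mul hr']
      omega
  · intro u hu v hv huv
    by_contra hne
    have h1 := (mem_seen.1 (Finset.mem_coe.1 hu)).2
    have h2 := (mem_seen.1 (Finset.mem_coe.1 hv)).2
    have h3 : nm (u - v) ≤ r := by
      rw [nm_le]
      intro i
      have h4 : u i / (r : ℤ) = v i / (r : ℤ) := congrFun huv i
      have h5 := Int.emod_add_mul_ediv (u i) r
      have h6 := Int.emod_add_mul_ediv (v i) r
      have h7 := Int.emod_nonneg (u i) hr'.ne'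
      have h8 := Int.emod_nonneg (v i) hr'.ne'
      have h9 := Int.emod_lt_of_pos (u i) hr'
      have h10 := Int.emod_lt_of_pos (v i) hr'
      rw [h4] at h5
      simp only [Pi.sub_apply]
      omega
    have h4 := hM _ h2 (u - v) (sub_ne_zero.2 hne) h3
    rw [vadd_vadd, sub_add_cancel] at h4
    exact h4 h1

end Anchor

section Meas

variable {n : ℕ} {Y : Type*} [MeasurableSpace Y] [StandardBorelSpace Y] [AddAction (Zn n) Y]

lemma measurableSet_seen (hmeas : ∀ v : Zn n, Measurable fun y : Y => v +ᵥ y) {M : Set Y}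
    (hM : MeasurableSet M) (R : ℕ) (S : Finset (Zn n)) : MeasurableSet {y | seen M R y = S} := by
  classical
  have : {y | seen M R y = S} = ⋂ u : Zn n, {y | u ∈ seen M R y ↔ u ∈ S} := by
    ext y
    simp [Finset.ext_iff]
  rw [this]
  refine MeasurableSet.iInter fun u => ?_
  have h1 : MeasurableSet {y : Y | u ∈ seen M R y} := by
    have : {y : Y | u ∈ seen M R y} = {y | nm u ≤ R} ∩ (fun y => u +ᵥ y) ⁻¹' M := by
      ext y
      simp [mem_seen]
    rw [this]
    exact (MeasurableSet.const _).inter (hmeas u hM)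
  by_cases hu : u ∈ S
  · simpa [hu] using h1
  · have : {y : Y | u ∈ seen M R y ↔ u ∈ S} = {y : Y | u ∈ seen M R y}ᶜ := by
      ext y; simp [hu]
    rw [this]
    exact h1.compl

lemma measurable_seen_comp (hmeas : ∀ v : Zn n, Measurable fun y : Y => v +ᵥ y) {M : Set Y}
    (hM : MeasurableSet M) (R : ℕ) {β : Type*} [MeasurableSpace β] (f : Finset (Zn n) → β) :
    Measurable fun y => f (seen M R y) := by
  intro E _
  have : (fun y => f (seen M R y)) ⁻¹' E = ⋃ S ∈ f ⁻¹' E, {y | seen M R y = S} := by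
    ext y
    simp
  rw [this]
  exact MeasurableSet.biUnion (Set.to_countable _) fun S _ => measurableSet_seen hmeas hM R S

/-- Most points see a locally constant anchor. -/
theorem exists_anchor (hmeas : ∀ v : Zn n, Measurable fun y : Y => v +ᵥ y)
    (hfree : ∀ (v : Zn n) (y : Y), v +ᵥ y = y → v = 0) (ν : Measure Y) [IsProbabilityMeasure ν]
    (N : ℕ) {ε : ENNReal} (hε : 0 < ε) :
    ∃ a : Y → Zn n, Measurable a ∧
      ν {y | ¬ ∀ u : Zn n, nm u ≤ N → a (u +ᵥ y) + u = a y} ≤ ε := by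
  classical
  -- choose `r`
  obtain ⟨r, hrN, hr0, hrε⟩ : ∃ r : ℕ, N ≤ r ∧ 0 < r ∧
      ((7 ^ n * (2 * N) : ℕ) : ENNReal) ≤ ε * r := by
    obtain ⟨r, hr⟩ := ENNReal.exists_nat_mul_gt hε.ne'
      (ENNReal.natCast_ne_top (7 ^ n * (2 * N)))
    refine ⟨r + N + 1, by omega, by omega, ?_⟩
    calc ((7 ^ n * (2 * N) : ℕ) : ENNReal) ≤ r * ε := hr.le
      _ = ε * r := mul_comm _ _
      _ ≤ ε * ((r + N + 1 : ℕ) : ENNReal) := by
        gcongr
        omega
  let D : Finset (Zn n) := (box n (-r) (r + 1)).erase 0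
  obtain ⟨M, hMm, hMd, hMmax⟩ := exists_maximal_discrete hmeas hfree D (by simp [D]) (by
    intro d hd
    simp only [D, Finset.mem_erase] at hd ⊢
    refine ⟨neg_ne_zero.2 hd.1, ?_⟩
    rw [← nm_le', nm_neg, nm_le']
    exact hd.2)
  have hMd' : ∀ y ∈ M, ∀ d : Zn n, d ≠ 0 → nm d ≤ r → d +ᵥ y ∉ M := by
    intro y hy d hd hdr
    exact hMd y hy d (Finset.mem_erase.2 ⟨hd, nm_le'.1 hdr⟩)
  have hne : ∀ R, r ≤ R → ∀ y : Y, (seen (n := n) M R y).Nonempty := by
    intro R hR y
    rcases hMmax y with h | ⟨d, hd, h⟩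
    · exact ⟨0, mem_seen.2 ⟨by rw [nm_zero]; omega, by rwa [zero_vadd]⟩⟩
    · refine ⟨d, mem_seen.2 ⟨le_trans ?_ hR, h⟩⟩
      rw [nm_le']
      exact (Finset.mem_erase.1 hd).2
  -- the bad sets
  let C : ℕ → Set Y := fun R => {y | ∃ m : Zn n, m +ᵥ y ∈ M ∧ R < nm m + N ∧ nm m ≤ R + N}
  have hCm : ∀ R, MeasurableSet (C R) := by
    intro R
    have : C R = ⋃ m : Zn n, ((fun y => m +ᵥ y) ⁻¹' M ∩ {y | R < nm m + N ∧ nm m ≤ R + N}) := by
      ext y; simp [C]
    rw [this]
    exact MeasurableSet.iUnion fun m => (hmeas m hMm).inter (MeasurableSet.const _)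
  have hcount : ∀ y, ((Finset.Ico r (2 * r)).filter fun R => y ∈ C R).card ≤ 7 ^ n * (2 * N) := by
    intro y
    calc ((Finset.Ico r (2 * r)).filter fun R => y ∈ C R).card
        ≤ ((seen M (3 * r) y).biUnion fun m =>
            (Finset.Ico (nm m - N) (nm m + N))).card := by
          refine Finset.card_le_card fun R hR => ?_
          rw [Finset.mem_filter, Finset.mem_Ico] at hR
          obtain ⟨hR1, m, hm, h1, h2⟩ := hR
          rw [Finset.mem_biUnion]
          refine ⟨m, mem_seen.2 ⟨by omega, hm⟩, Finset.mem_Ico.2 ⟨by omega, h1⟩⟩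
      _ ≤ ∑ m ∈ seen M (3 * r) y, (Finset.Ico (nm m - N) (nm m + N)).card :=
          Finset.card_biUnion_le
      _ ≤ ∑ _m ∈ seen M (3 * r) y, 2 * N := by
          refine Finset.sum_le_sum fun m _ => ?_
          rw [Nat.card_Ico]
          omega
      _ = (seen M (3 * r) y).card * (2 * N) := by rw [Finset.sum_const, smul_eq_mul]
      _ ≤ 7 ^ n * (2 * N) := Nat.mul_le_mul_right _ (card_seen_le hr0 hMd' y)
  have hsum : ∑ R ∈ Finset.Ico r (2 * r), ν (C R) ≤ ((7 ^ n * (2 * N) : ℕ) : ENNReal) := by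
    calc ∑ R ∈ Finset.Ico r (2 * r), ν (C R)
        = ∑ R ∈ Finset.Ico r (2 * r), ∫⁻ y, (C R).indicator 1 y ∂ν := by
          refine Finset.sum_congr rfl fun R _ => ?_
          rw [lintegral_indicator_one (hCm R)]
      _ = ∫⁻ y, ∑ R ∈ Finset.Ico r (2 * r), (C R).indicator 1 y ∂ν := by
          rw [lintegral_finsetSum]
          intro R _
          exact measurable_one.indicator (hCm R)
      _ ≤ ∫⁻ _y, ((7 ^ n * (2 * N) : ℕ) : ENNReal) ∂ν := by
          refine lintegral_mono fun y => ?_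
          calc ∑ R ∈ Finset.Ico r (2 * r), (C R).indicator (1 : Y → ENNReal) y
              = (((Finset.Ico r (2 * r)).filter fun R => y ∈ C R).card : ENNReal) := by
                rw [Finset.card_filter]
                push_cast
                refine Finset.sum_congr rfl fun R _ => ?_
                by_cases h : y ∈ C R <;> simp [h]
            _ ≤ _ := by exact_mod_cast hcount y
      _ = _ := by simp
  -- choose `R`
  obtain ⟨R, hR, hRε⟩ : ∃ R ∈ Finset.Ico r (2 * r), ν (C R) ≤ ε := by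
    by_contra hcon
    push Not at hcon
    have h1 : ∑ _R ∈ Finset.Ico r (2 * r), ε < ∑ R ∈ Finset.Ico r (2 * r), ν (C R) := by
      by_cases hεt : ε = ⊤
      · exfalso
        have := hcon r (Finset.mem_Ico.2 ⟨le_rfl, by omega⟩)
        rw [hεt] at this
        exact not_top_lt this
      · refine ENNReal.sum_lt_sum_of_nonempty ⟨r, Finset.mem_Ico.2 ⟨le_rfl, by omega⟩⟩ ?_
        intro R hR
        exact hcon R hR
    rw [Finset.sum_const, Nat.card_Ico, nsmul_eq_mul] at h1
    have h2 : ((2 * r - r : ℕ) : ENNReal) * ε = ε * r := by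
      rw [mul_comm]; congr 2; omega
    rw [h2] at h1
    exact absurd (h1.trans_le hsum) (not_lt.2 hrε)
  have hrR : r ≤ R := (Finset.mem_Ico.1 hR).1
  refine ⟨fun y => cmin (seen M R y), measurable_seen_comp hmeas hMm R cmin, ?_⟩
  refine le_trans (measure_mono ?_) hRε
  intro y hy
  by_contra hyC
  apply hy
  intro u hu
  refine anchor_const (hne R hrR) ?_ hu
  intro m hm h
  exact hyC ⟨m, hm, h⟩

end Meas

/-- A Borel partial tiling of the orbits by cubes `[0,N)^n`: `kept` is the set of covered points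
and `pos y` is the position of `y` in its cube. -/
structure Cubes (n : ℕ) (Y : Type*) [MeasurableSpace Y] [AddAction (Zn n) Y] (N : ℕ) where
  /-- covered points -/
  kept : Set Y
  /-- position in the cube -/
  pos : Y → Zn n
  kept_meas : MeasurableSet kept
  pos_meas : Measurable pos
  pos_mem : ∀ y, pos y ∈ box n 0 N
  move : ∀ y ∈ kept, ∀ v ∈ box n 0 N,
    (v - pos y) +ᵥ y ∈ kept ∧ pos ((v - pos y) +ᵥ y) = v

section CubesExist

variable {n : ℕ} {Y : Type*} [MeasurableSpace Y] [StandardBorelSpace Y] [AddAction (Zn n) Y]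

/-- Partial tilings by cubes with a random offset. -/
theorem exists_cubes (hmeas : ∀ v : Zn n, Measurable fun y : Y => v +ᵥ y)
    (hfree : ∀ (v : Zn n) (y : Y), v +ᵥ y = y → v = 0) (ν : Measure Y) [IsProbabilityMeasure ν]
    {N : ℕ} (hN : 0 < N) {ε : ENNReal} (hε : 0 < ε) :
    ∃ c : Zn n → Cubes n Y N, (∀ t, ν (c t).keptᶜ ≤ ε) ∧
      ∀ y, ∀ t ∈ box n 0 N, ∀ t' ∈ box n 0 N, (c t).pos y = (c t').pos y → t = t' := by
  obtain ⟨a, ha, hbad⟩ := exists_anchor hmeas hfree ν N hε
  have hN' : (0 : ℤ) < N := by exact_mod_cast hN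
  let pos : Zn n → Y → Zn n := fun t y i => (-(a y i) - t i) % (N : ℤ)
  let kept : Zn n → Set Y := fun t =>
    {y | ∀ v ∈ box n 0 N, a ((v - pos t y) +ᵥ y) + (v - pos t y) = a y}
  have hposm : ∀ t, Measurable (pos t) := by
    intro t
    have : pos t = (fun w : Zn n => fun i => (-(w i) - t i) % (N : ℤ)) ∘ a := rfl
    rw [this]
    exact (measurable_of_countable _).comp ha
  have hposmem : ∀ t y, pos t y ∈ box n 0 N := by
    intro t y
    rw [mem_box]
    intro i
    exact ⟨Int.emod_nonneg _ hN'.ne', Int.emod_lt_of_pos _ hN'⟩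
  have hkeptm : ∀ t, MeasurableSet (kept t) := by
    intro t
    have : kept t = ⋂ v ∈ box n 0 N, ⋂ w : Zn n, ({y | pos t y = w}ᶜ ∪
        {y | a ((v - w) +ᵥ y) + (v - w) = a y}) := by
      ext y
      simp only [kept, Set.mem_ofPred_eq, Set.mem_iInter, Set.mem_union, Set.mem_compl_iff]
      constructor
      · intro h v hv w
        by_cases hw : pos t y = w
        · right; rw [← hw]; exact h v hv
        · left; exact hw
      · intro h v hv
        rcases h v hv (pos t y) with h' | h'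
        · exact absurd rfl h'
        · exact h'
    rw [this]
    refine Finset.measurableSet_biInter _ fun v _ => MeasurableSet.iInter fun w => ?_
    refine MeasurableSet.union ?_ ?_
    · exact ((hposm t) (measurableSet_singleton w)).compl
    · have h1 : Measurable fun y : Y => a ((v - w) +ᵥ y) + (v - w) :=
        (measurable_of_countable (fun u : Zn n => u + (v - w))).comp (ha.comp (hmeas (v - w)))
      exact measurableSet_eq_fun h1 ha
  refine ⟨fun t => ⟨kept t, pos t, hkeptm t, hposm t, hposmem t, ?_⟩, ?_, ?_⟩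
  · intro y hy v hv
    have hav := hy v hv
    have hp : pos t ((v - pos t y) +ᵥ y) = v := by
      funext i
      have h1 : a ((v - pos t y) +ᵥ y) i = a y i - (v i - pos t y i) := by
        have := congrFun hav i
        simp only [Pi.add_apply, Pi.sub_apply] at this
        linarith
      change (-(a ((v - pos t y) +ᵥ y) i) - t i) % (N : ℤ) = v i
      rw [h1]
      have h2 : pos t y i = (-(a y i) - t i) % (N : ℤ) := rfl
      have h3 := Int.emod_add_mul_ediv (-(a y i) - t i) N
      have h4 : -(a y i - (v i - pos t y i)) - t i =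
          v i + N * ((-(a y i) - t i) / (N : ℤ)) := by
        rw [h2]; linarith
      rw [h4, Int.add_mul_emod_self_left]
      have := (mem_box.1 hv) i
      exact Int.emod_eq_of_lt this.1 this.2
    refine ⟨?_, hp⟩
    intro w hw
    rw [hp, vadd_vadd]
    have h1 : w - v + (v - pos t y) = w - pos t y := by abel
    rw [h1]
    have h2 := hy w hw
    have h3 : a ((v - pos t y) +ᵥ y) = a y - (v - pos t y) := by rw [← hav]; abel
    rw [h3, ← h2]
    abel
  · intro t
    refine le_trans (measure_mono ?_) hbad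
    intro y hy
    simp only [Set.mem_ofPred_eq]
    intro hcon
    apply hy
    intro v hv
    refine hcon _ ?_
    rw [nm_le]
    intro i
    have h1 := (mem_box.1 hv) i
    have h2 := (mem_box.1 (hposmem t y)) i
    simp only [Pi.sub_apply]
    omega
  · intro y t ht t' ht' h
    funext i
    have h1 : (-(a y i) - t i) % (N : ℤ) = (-(a y i) - t' i) % (N : ℤ) := congrFun h i
    have h2 := (mem_box.1 ht) i
    have h3 := (mem_box.1 ht') i
    rw [Int.emod_emod_of_dvd _ (dvd_refl _) |>.symm] at h1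
    have h4 : (N : ℤ) ∣ (t i - t' i) := by
      have := Int.ModEq.dvd (show (-(a y i) - t i) ≡ (-(a y i) - t' i) [ZMOD N] by
        have := congrFun h i
        exact this)
      have e : -(a y i) - t' i - (-(a y i) - t i) = t i - t' i := by ring
      rwa [e] at this
    obtain ⟨k, hk⟩ := h4
    have hk0 : k = 0 := by
      by_contra hne
      rcases lt_or_gt_of_ne hne with h | h
      · have : (N : ℤ) * k ≤ -N := by nlinarith
        omega
      · have : (N : ℤ) ≤ N * k := by nlinarith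
        omega
    rw [hk0, mul_zero] at hk
    omega

end CubesExist

end MPdc4ce7
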