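import Pool.Agent.Lib.MP_dc4ce7_lc.Extremal

/-!
Rules: equivariant maps that turn every configuration of the factor of iid solution into a
solution on the orbits of the given action.
-/

set_option linter.unusedSectionVars false

namespace MPdc4ce7

open MeasureTheory Set

/-- The data of a factor of iid solution of a local problem. -/
structure Setup (n : ℕ) (I L : Type*) [MeasurableSpace I] [MeasurableSpace L] where
  /-- law of a label -/
  lam : Measure I
  prob : IsProbabilityMeasure lam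
  /-- the solution -/
  φ : (Zn n → I) → L
  hφ : Measurable φ
  /-- the good configurations -/
  O : Set (Zn n → I)
  hO : MeasurableSet O
  hO0 : PP n lam Oᶜ = 0
  hOsh : ∀ v : Zn n, ∀ ω ∈ O, sh v ω ∈ O
  /-- window radius -/
  r : ℕ
  /-- local correctness at the origin -/
  ok : (Zn n → L) → Prop
  hok : ∀ z z', agree (box n (-r) (r + 1)) z z' → ok z → ok z'
  good : ∀ ω ∈ O, ok (cf φ ω)

attribute [instance] Setup.prob

/-- The iid measure of a setup. -/
noncomputable abbrev Setup.P {n : ℕ} {I L : Type*} [MeasurableSpace I] [MeasurableSpace L]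
    (S : Setup n I L) : Measure (Zn n → I) := PP n S.lam

/-- A rule. -/
structure Rule {n : ℕ} {I L : Type*} [MeasurableSpace I] [MeasurableSpace L]
    (S : Setup n I L) (Y : Type*) [MeasurableSpace Y] [AddAction (Zn n) Y] where
  /-- the rule -/
  F : Y → (Zn n → L) → L
  /-- its radius -/
  ρ : ℕ
  loc : ∀ y z z', agree (box n (-ρ) (ρ + 1)) z z' → F y z = F y z'
  meas : ∀ z, Measurable fun y => F y z
  good : ∀ y : Y, ∀ ω ∈ S.O, S.ok (fun v => F (v +ᵥ y) (sh v (cf S.φ ω)))

section

variable {n : ℕ} {I L : Type*} [MeasurableSpace I] [Fintype L] [MeasurableSpace L]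
  [MeasurableSingletonClass L] (S : Setup n I L) {Y : Type*} [MeasurableSpace Y]
  [AddAction (Zn n) Y]

/-- The trivial rule. -/
def trivRule : Rule S Y where
  F := fun _ z => z 0
  ρ := 0
  loc := fun _ z z' h => h 0 (by rw [mem_box]; intro i; simp)
  meas := fun _ => measurable_const
  good := fun y ω hω => by
    have : (fun v => sh v (cf S.φ ω) 0) = cf S.φ ω := by
      funext v; simp [sh]
    rw [this]; exact S.good ω hω

lemma measurable_countable_param {α β γ : Type*} [MeasurableSpace α] [MeasurableSpace β]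
    [MeasurableSpace γ] [Countable γ] [MeasurableSingletonClass γ] {p : α → γ} (hp : Measurable p)
    {H : γ → α → β} (hH : ∀ c, Measurable (H c)) : Measurable fun x => H (p x) x := by
  intro E hE
  have : (fun x => H (p x) x) ⁻¹' E = ⋃ c, (p ⁻¹' {c} ∩ (H c) ⁻¹' E) := by
    ext x
    simp
  rw [this]
  exact MeasurableSet.iUnion fun c => (hp (measurableSet_singleton c)).inter (hH c hE)

open scoped Classical in
/-- Conditions for the selected configuration. -/
def selP (Z Q : Finset (Zn n)) (ω' : Zn n → I) (z : Zn n → L) (ω'' : Zn n → I) : Prop :=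
  ω'' ∈ S.O ∧ agree Z (cf S.φ ω'') z ∧ dis Q (cf S.φ ω'') (cf S.φ ω') =
    sInf ((fun ω'' => dis Q (cf S.φ ω'') (cf S.φ ω')) ''
      {ω'' | ω'' ∈ S.O ∧ agree Z (cf S.φ ω'') z})

/-- The selected configuration. -/
noncomputable def sel (Z Q : Finset (Zn n)) (ω' : Zn n → I) (z : Zn n → L) : Zn n → I :=
  @Classical.epsilon _ ⟨ω'⟩ (selP S Z Q ω' z)

lemma selP_congr {Z Q : Finset (Zn n)} {ω₁' ω₂' : Zn n → I} {z₁ z₂ : Zn n → L}
    (h' : agree Q (cf S.φ ω₁') (cf S.φ ω₂')) (h : agree Z z₁ z₂) :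
    selP S Z Q ω₁' z₁ = selP S Z Q ω₂' z₂ := by
  have h1 : {ω'' | ω'' ∈ S.O ∧ agree Z (cf S.φ ω'') z₁} =
      {ω'' | ω'' ∈ S.O ∧ agree Z (cf S.φ ω'') z₂} := by
    ext ω''
    simp only [Set.mem_ofPred_eq]
    refine and_congr_right fun _ => ?_
    constructor
    · intro ha u hu; rw [ha u hu, h u hu]
    · intro ha u hu; rw [ha u hu, h u hu]
  have h2 : (fun ω'' => dis Q (cf S.φ ω'') (cf S.φ ω₁')) =
      (fun ω'' => dis Q (cf S.φ ω'') (cf S.φ ω₂')) := by
    funext ω''
    exact dis_congr (agree_refl _ _) h'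
  funext ω''
  unfold selP
  rw [h1, h2]
  have h3 : dis Q (cf S.φ ω'') (cf S.φ ω₁') = dis Q (cf S.φ ω'') (cf S.φ ω₂') :=
    congrFun h2 ω''
  rw [h3]
  refine propext (and_congr_right fun _ => and_congr_left fun _ => ?_)
  constructor
  · intro ha u hu; rw [ha u hu, h u hu]
  · intro ha u hu; rw [ha u hu, h u hu]

lemma epsilon_congr {α : Sort*} (h h' : Nonempty α) {p q : α → Prop} (hpq : p = q) :
    @Classical.epsilon α h p = @Classical.epsilon α h' q := by
  subst hpq; rfl

lemma sel_congr {Z Q : Finset (Zn n)} {ω₁' ω₂' : Zn n → I} {z₁ z₂ : Zn n → L}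
    (h' : agree Q (cf S.φ ω₁') (cf S.φ ω₂')) (h : agree Z z₁ z₂) :
    sel S Z Q ω₁' z₁ = sel S Z Q ω₂' z₂ :=
  epsilon_congr _ _ (selP_congr S h' h)

lemma sel_spec {Z Q : Finset (Zn n)} {ω' ω : Zn n → I} (hω : ω ∈ S.O) :
    sel S Z Q ω' (cf S.φ ω) ∈ S.O ∧
    agree Z (cf S.φ (sel S Z Q ω' (cf S.φ ω))) (cf S.φ ω) ∧
    dis Q (cf S.φ (sel S Z Q ω' (cf S.φ ω))) (cf S.φ ω') = dd S.φ S.O Z Q ω' ω := by
  have hex : ∃ ω'', selP S Z Q ω' (cf S.φ ω) ω'' := by
    obtain ⟨ω'', h1, h2, h3⟩ := exists_dd (φ := S.φ) (Z := Z) (Q := Q) (ω' := ω') hω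
    exact ⟨ω'', h1, h2, h3⟩
  exact Classical.epsilon_spec_aux _ _ hex

variable (R : Rule S Y) {N : ℕ} (c : Cubes n Y N) (ω' : Zn n → I)

/-- zone of the step -/
noncomputable abbrev Rule.Z (R : Rule S Y) (N : ℕ) : Finset (Zn n) :=
  zone n R.ρ (R.ρ + 2 * S.r) N

/-- big box of the step -/
noncomputable abbrev Rule.Q (R : Rule S Y) (N : ℕ) : Finset (Zn n) :=
  box n (-(R.ρ : ℤ)) (N + R.ρ)

open scoped Classical in
/-- The new rule. -/
noncomputable def newF (y : Y) (z : Zn n → L) : L :=
  if y ∈ c.kept then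
    R.F y (sh (c.pos y) (cf S.φ (sel S (R.Z S N) (R.Q S N) ω' (sh (-(c.pos y)) z))))
  else R.F y z

open scoped Classical in
/-- The new deterministic map. -/
noncomputable def newg (g : Y → L) (y : Y) : L :=
  if y ∈ c.kept then R.F y (sh (c.pos y) (cf S.φ ω')) else g y

lemma newg_meas {g : Y → L} (hg : Measurable g) : Measurable (newg S R c ω' g) := by
  classical
  unfold newg
  refine Measurable.ite c.kept_meas ?_ hg
  exact measurable_countable_param c.pos_meas (H := fun p y => R.F y (sh p (cf S.φ ω')))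
    fun p => R.meas _

lemma newF_meas (z : Zn n → L) : Measurable fun y => newF S R c ω' y z := by
  classical
  unfold newF
  refine Measurable.ite c.kept_meas ?_ (R.meas z)
  exact measurable_countable_param c.pos_meas (H := fun p y => R.F y (sh p
    (cf S.φ (sel S (R.Z S N) (R.Q S N) ω' (sh (-p) z))))) fun p => R.meas _

lemma newF_loc (y : Y) (z z' : Zn n → L)
    (h : agree (box n (-((N + R.ρ : ℕ) : ℤ)) ((N + R.ρ : ℕ) + 1)) z z') :
    newF S R c ω' y z = newF S R c ω' y z' := by
  classical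
  unfold newF
  split_ifs with hy
  · have : sel S (R.Z S N) (R.Q S N) ω' (sh (-(c.pos y)) z) =
        sel S (R.Z S N) (R.Q S N) ω' (sh (-(c.pos y)) z') := by
      refine sel_congr S (agree_refl _ _) fun u hu => ?_
      rw [sh_apply, sh_apply]
      refine h _ ?_
      have h1 := mem_box.1 (Finset.mem_sdiff.1 hu).1
      have h2 := mem_box.1 (c.pos_mem y)
      rw [mem_box]
      intro i
      have h3 := h1 i
      have h4 := h2 i
      simp only [Pi.add_apply, Pi.neg_apply]
      push_cast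
      omega
    rw [this]
  · refine R.loc y z z' fun u hu => h u ?_
    rw [mem_box] at hu ⊢
    intro i
    have := hu i
    push_cast
    omega

lemma newF_good (y : Y) (ω : Zn n → I) (hω : ω ∈ S.O) :
    S.ok (fun v => newF S R c ω' (v +ᵥ y) (sh v (cf S.φ ω))) := by
  classical
  by_cases hcase : ∃ v₀ ∈ box n (-(S.r : ℤ)) (S.r + 1), (v₀ +ᵥ y) ∈ c.kept ∧
      c.pos (v₀ +ᵥ y) ∈ box n (2 * S.r) (N - 2 * S.r)
  · obtain ⟨v₀, hv₀, hk, hp⟩ := hcase
    set p₀ := c.pos (v₀ +ᵥ y) with hp₀
    set ω'' := sel S (R.Z S N) (R.Q S N) ω' (cf S.φ (sh (v₀ - p₀) ω)) with hω''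
    have hO'' : ω'' ∈ S.O := (sel_spec S (S.hOsh _ ω hω)).1
    have hgood := R.good y (sh (p₀ - v₀) ω'') (S.hOsh _ _ hO'')
    refine S.hok _ _ (fun v hv => ?_) hgood
    -- the position of `v +ᵥ y`
    have hpv : p₀ + (v - v₀) ∈ box n 0 N := by
      have h1 := mem_box.1 hp
      have h2 := mem_box.1 hv
      have h3 := mem_box.1 hv₀
      rw [mem_box]
      intro i
      have h4 := h1 i
      have h5 := h2 i
      have h6 := h3 i
      simp only [Pi.add_apply, Pi.sub_apply]
      omega
    have hmove := c.move _ hk _ hpv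
    have e1 : (p₀ + (v - v₀) - c.pos (v₀ +ᵥ y)) +ᵥ (v₀ +ᵥ y) = v +ᵥ y := by
      rw [vadd_vadd, ← hp₀]
      congr 1
      abel
    rw [e1] at hmove
    unfold newF
    rw [if_pos hmove.1, hmove.2]
    have e2 : sh (-(p₀ + (v - v₀))) (sh v (cf S.φ ω)) = cf S.φ (sh (v₀ - p₀) ω) := by
      rw [sh_sh, cf_sh]
      congr 1
      abel
    rw [e2, ← hω'', cf_sh, sh_sh]
    congr 2
    abel
  · push Not at hcase
    have hgood := R.good y ω hω
    refine S.hok _ _ (fun v hv => ?_) hgood
    unfold newF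
    split_ifs with hk
    · set p := c.pos (v +ᵥ y) with hp
      have hnd := hcase v hv hk
      have e2 : sh (-p) (sh v (cf S.φ ω)) = cf S.φ (sh (-p + v) ω) := by
        rw [sh_sh, cf_sh]
      rw [e2]
      have hspec := (sel_spec S (Z := R.Z S N) (Q := R.Q S N) (ω' := ω')
        (S.hOsh (-p + v) ω hω)).2.1
      refine R.loc _ _ _ fun u hu => ?_
      rw [sh_apply p, hspec (u + p) ?_, cf_sh, sh_apply, sh_apply]
      · congr 1
        abel
      · have h1 := mem_box.1 hu
        have h2 := mem_box.1 (c.pos_mem (v +ᵥ y))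
        rw [← hp] at h2
        rw [Rule.Z, zone, Finset.mem_sdiff]
        refine ⟨?_, fun hcon => hnd ?_⟩
        · rw [mem_box]
          intro i
          have h3 := h1 i
          have h4 := h2 i
          simp only [Pi.add_apply]
          omega
        · rw [mem_box] at hcon ⊢
          intro i
          have h3 := h1 i
          have h5 := hcon i
          have h6 : c.pos (v +ᵥ y) i = p i := rfl
          simp only [Pi.add_apply] at h5
          push_cast at h5
          rw [h6]
          omega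
    · rfl

/-- The new rule. -/
noncomputable def newRule : Rule S Y where
  F := newF S R c ω'
  ρ := N + R.ρ
  loc := newF_loc S R c ω'
  meas := newF_meas S R c ω'
  good := newF_good S R c ω'

/-- The new map is correct well inside the cubes. -/
lemma newg_ok (g : Y → L) (hω' : ω' ∈ S.O) {y : Y} (hy : y ∈ c.kept)
    (hp : c.pos y ∈ box n S.r (N - S.r)) :
    S.ok (fun v => newg S R c ω' g (v +ᵥ y)) := by
  classical
  have hgood := R.good y (sh (c.pos y) ω') (S.hOsh _ _ hω')
  refine S.hok _ _ (fun v hv => ?_) hgood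
  have hpv : c.pos y + v ∈ box n 0 N := by
    have h1 := mem_box.1 hp
    have h2 := mem_box.1 hv
    rw [mem_box]
    intro i
    have h4 := h1 i
    have h5 := h2 i
    simp only [Pi.add_apply]
    omega
  have hmove := c.move _ hy _ hpv
  have e1 : (c.pos y + v - c.pos y) +ᵥ y = v +ᵥ y := by
    congr 1
    abel
  rw [e1] at hmove
  unfold newg
  rw [if_pos hmove.1, hmove.2, cf_sh, sh_sh, add_comm]

end

end MPdc4ce7
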