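import Pool.Agent.Lib.MP_dc4ce7_lc.Rule

/-!
One step of the construction: from a rule and a deterministic map to a rule that is almost
deterministic.
-/

set_option linter.unusedSectionVars false

namespace MPdc4ce7

open MeasureTheory Set

section

variable {n : ℕ} {I L : Type*} [MeasurableSpace I] [Fintype L] [MeasurableSpace L]
  [MeasurableSingletonClass L] (S : Setup n I L) {Y : Type*} [MeasurableSpace Y]
  [AddAction (Zn n) Y]

lemma measurable_rule (R : Rule S Y) :
    Measurable fun p : Y × (Zn n → I) => R.F p.1 (cf S.φ p.2) := by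
  classical
  have hL : Nonempty L := ⟨S.φ (fun _ => (nonempty_I S.lam).some)⟩
  let B := box n (-(R.ρ : ℤ)) (R.ρ + 1)
  let ext : (B → L) → Zn n → L := fun a u => if h : u ∈ B then a ⟨u, h⟩ else Classical.arbitrary L
  have e : (fun p : Y × (Zn n → I) => R.F p.1 (cf S.φ p.2)) =
      fun p => R.F p.1 (ext (fun u : B => cf S.φ p.2 u)) := by
    funext p
    refine R.loc _ _ _ fun u hu => ?_
    change _ = if h : u ∈ B then _ else _
    rw [dif_pos hu]
  rw [e]
  have hr : Measurable fun p : Y × (Zn n → I) => (fun u : B => cf S.φ p.2 u) :=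
    measurable_pi_lambda _ fun u =>
      (measurable_pi_apply (u : Zn n)).comp ((measurable_cf S.hφ).comp measurable_snd)
  exact measurable_countable_param hr (H := fun a (p : Y × (Zn n → I)) => R.F p.1 (ext a))
    fun a => (R.meas (ext a)).comp measurable_fst

/-- The error of a rule at a point. -/
noncomputable def errAt (R : Rule S Y) (g : Y → L) (y : Y) : ENNReal :=
  S.P {ω | R.F y (cf S.φ ω) ≠ g y}

/-- The mean error of a rule. -/
noncomputable def Err (ν : Measure Y) (R : Rule S Y) (g : Y → L) : ENNReal :=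
  ∫⁻ y, errAt S R g y ∂ν

lemma measurableSet_err (R : Rule S Y) {g : Y → L} (hg : Measurable g) :
    MeasurableSet {p : Y × (Zn n → I) | R.F p.1 (cf S.φ p.2) ≠ g p.1} :=
  (measurableSet_eq_fun (measurable_rule S R) (hg.comp measurable_fst)).compl

lemma measurableSet_err' (R : Rule S Y) {g : Y → L} (hg : Measurable g) (y : Y) :
    MeasurableSet {ω : Zn n → I | R.F y (cf S.φ ω) ≠ g y} :=
  measurable_prodMk_left (measurableSet_err S R hg)

lemma P_preimage_sh (v : Zn n) {A : Set (Zn n → I)} (hA : MeasurableSet A) :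
    S.P (sh v ⁻¹' A) = S.P A :=
  (measurePreserving_sh S.lam v).measure_preimage hA.nullMeasurableSet

variable (R : Rule S Y) {N : ℕ}

/-- The mean change of the deterministic map. -/
lemma A_bound (c : Cubes n Y N) (ν : Measure Y) [IsProbabilityMeasure ν] {g : Y → L}
    (hg : Measurable g) :
    ∫⁻ ω', ν {y | newg S R c ω' g y ≠ g y} ∂S.P ≤ Err S ν R g := by
  classical
  set T : Set ((Zn n → I) × Y) := {p | newg S R c p.1 g p.2 ≠ g p.2} with hT
  have hTm : MeasurableSet T := by
    have h1 : Measurable fun p : (Zn n → I) × Y => newg S R c p.1 g p.2 := by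
      unfold newg
      refine Measurable.ite (measurable_snd c.kept_meas) ?_ (hg.comp measurable_snd)
      have hp : Measurable fun p : (Zn n → I) × Y => c.pos p.2 := c.pos_meas.comp measurable_snd
      refine measurable_countable_param hp
        (H := fun q (p : (Zn n → I) × Y) => R.F p.2 (sh q (cf S.φ p.1))) fun q => ?_
      have h2 : (fun p : (Zn n → I) × Y => R.F p.2 (sh q (cf S.φ p.1))) =
          (fun p : Y × (Zn n → I) => R.F p.1 (cf S.φ p.2)) ∘
            (fun p : (Zn n → I) × Y => (p.2, sh q p.1)) := by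
        funext p
        simp only [Function.comp_apply]
        rw [cf_sh]
      rw [h2]
      exact (measurable_rule S R).comp
        (measurable_snd.prodMk ((measurable_sh q).comp measurable_fst))
    exact (measurableSet_eq_fun h1 (hg.comp measurable_snd)).compl
  have h1 := Measure.prod_apply (μ := S.P) (ν := ν) hTm
  have h2 := Measure.prod_apply_symm (μ := S.P) (ν := ν) hTm
  have h3 : ∫⁻ ω', ν {y | newg S R c ω' g y ≠ g y} ∂S.P = (S.P.prod ν) T := h1.symm
  rw [h3, h2]
  refine lintegral_mono fun y => ?_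
  by_cases hy : y ∈ c.kept
  · have : (fun x => (x, y)) ⁻¹' T = sh (c.pos y) ⁻¹' {ω | R.F y (cf S.φ ω) ≠ g y} := by
      ext ω'
      simp only [hT, Set.mem_preimage, Set.mem_ofPred_eq, newg, if_pos hy, cf_sh]
    rw [this, P_preimage_sh S _ (measurableSet_err' S R hg y)]
    rfl
  · have : (fun x => (x, y)) ⁻¹' T = ∅ := by
      ext ω'
      simp [hT, newg, hy]
    rw [this, measure_empty]
    exact zero_le

/-- Imitation failure at a position. -/
def failSet (N : ℕ) (ω' : Zn n → I) (p : Zn n) : Set (Zn n → I) :=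
  {ω | ∃ u ∈ box n (-(R.ρ : ℤ)) (R.ρ + 1),
    cf S.φ (sel S (R.Z S N) (R.Q S N) ω' (cf S.φ ω)) (u + p) ≠ cf S.φ ω' (u + p)}

lemma measurableSet_failSet (N : ℕ) (ω' : Zn n → I) (p : Zn n) :
    MeasurableSet (failSet S R N ω' p) := by
  have h := measurable_of_agree (S := R.Z S N) S.hφ (β := Prop)
    (f := fun ω => ω ∈ failSet S R N ω' p) ?_
  · exact measurableSet_setOfPred.2 h
  · intro ω₁ ω₂ h
    unfold failSet
    simp only [Set.mem_ofPred_eq]
    rw [sel_congr S (agree_refl _ _) h]

/-- The mean error of the new rule. -/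
lemma E_bound (c : Cubes n Y N) (ν : Measure Y) [IsProbabilityMeasure ν] {g : Y → L}
    (ω' : Zn n → I) :
    Err S ν (newRule S R c ω') (newg S R c ω' g) ≤ ν c.keptᶜ +
      ∑ p ∈ box n 0 N, ν {y | c.pos y = p} * S.P (failSet S R N ω' p) := by
  classical
  have hpm : ∀ p, MeasurableSet {y | c.pos y = p} := fun p =>
    c.pos_meas (measurableSet_singleton p)
  calc Err S ν (newRule S R c ω') (newg S R c ω' g)
      ≤ ∫⁻ y, (c.keptᶜ.indicator 1 y + ∑ p ∈ box n 0 N,
          ({y | c.pos y = p} : Set Y).indicator (fun _ => S.P (failSet S R N ω' p)) y) ∂ν := by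
        refine lintegral_mono fun y => ?_
        by_cases hy : y ∈ c.kept
        · have hsum : S.P (failSet S R N ω' (c.pos y)) ≤ ∑ p ∈ box n 0 N,
              ({y | c.pos y = p} : Set Y).indicator (fun _ => S.P (failSet S R N ω' p)) y := by
            refine le_trans ?_ (Finset.single_le_sum (f := fun p =>
              ({y | c.pos y = p} : Set Y).indicator (fun _ => S.P (failSet S R N ω' p)) y)
              (fun _ _ => zero_le) (c.pos_mem y))
            rw [Set.indicator_of_mem (by exact rfl)]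
          refine le_trans ?_ (le_add_of_nonneg_of_le zero_le hsum)
          rw [← P_preimage_sh S (-(c.pos y)) (measurableSet_failSet S R N ω' (c.pos y))]
          refine measure_mono fun ω hω => ?_
          have hω1 : newF S R c ω' y (cf S.φ ω) ≠ newg S R c ω' g y := hω
          rw [newF, newg, if_pos hy, if_pos hy] at hω1
          by_contra hcon
          apply hω1
          refine R.loc _ _ _ fun u hu => ?_
          rw [sh_apply, sh_apply]
          by_contra hne
          apply hcon
          refine ⟨u, hu, ?_⟩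
          rw [cf_sh]
          exact hne
        · rw [Set.indicator_of_mem (by exact hy : y ∈ c.keptᶜ)]
          exact le_trans prob_le_one (le_self_add)
    _ = ν c.keptᶜ + ∑ p ∈ box n 0 N, ν {y | c.pos y = p} * S.P (failSet S R N ω' p) := by
        rw [lintegral_add_left (measurable_one.indicator c.kept_meas.compl),
          lintegral_indicator_one c.kept_meas.compl, lintegral_finsetSum _ fun p _ =>
            measurable_const.indicator (hpm p)]
        congr 1
        refine Finset.sum_congr rfl fun p _ => ?_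
        rw [lintegral_indicator_const (hpm p), mul_comm]

/-- Sum of the imitation failures. -/
lemma fail_sum (N : ℕ) (ω' : Zn n → I) :
    ∑ p ∈ box n 0 N, S.P (failSet S R N ω' p) ≤
      ((box n (-(R.ρ : ℤ)) (R.ρ + 1)).card : ENNReal) *
        ∫⁻ ω, (dd S.φ S.O (R.Z S N) (R.Q S N) ω' ω : ENNReal) ∂S.P := by
  classical
  have hddm : Measurable fun ω => (dd S.φ S.O (R.Z S N) (R.Q S N) ω' ω : ENNReal) := by
    refine measurable_of_agree S.hφ (R.Z S N) fun ω₁ ω₂ h => ?_
    rw [dd_congr (agree_refl _ _) h]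
  rw [← lintegral_const_mul _ hddm]
  calc ∑ p ∈ box n 0 N, S.P (failSet S R N ω' p)
      = ∫⁻ ω, ∑ p ∈ box n 0 N, (failSet S R N ω' p).indicator 1 ω ∂S.P := by
        rw [lintegral_finsetSum _ fun p _ =>
          measurable_one.indicator (measurableSet_failSet S R N ω' p)]
        refine Finset.sum_congr rfl fun p _ => ?_
        rw [lintegral_indicator_one (measurableSet_failSet S R N ω' p)]
    _ ≤ _ := by
        have hOae : ∀ᵐ ω ∂S.P, ω ∈ S.O := by
          rw [ae_iff]; exact S.hO0
        refine lintegral_mono_ae ?_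
        filter_upwards [hOae] with ω hω
        have hspec := sel_spec S (Z := R.Z S N) (Q := R.Q S N) (ω' := ω') hω
        set ω'' := sel S (R.Z S N) (R.Q S N) ω' (cf S.φ ω) with hω''
        have h1 : ∑ p ∈ box n 0 N, (failSet S R N ω' p).indicator (1 : (Zn n → I) → ENNReal) ω =
            (((box n 0 N).filter fun p => ω ∈ failSet S R N ω' p).card : ENNReal) := by
          rw [Finset.card_filter]
          push_cast
          refine Finset.sum_congr rfl fun p _ => ?_
          by_cases h : ω ∈ failSet S R N ω' p <;> simp [h]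
        rw [h1, ← hspec.2.2]
        have h2 : ((box n 0 N).filter fun p => ω ∈ failSet S R N ω' p).card ≤
            (box n (-(R.ρ : ℤ)) (R.ρ + 1)).card * dis (R.Q S N) (cf S.φ ω'') (cf S.φ ω') := by
          calc _ ≤ ((box n (-(R.ρ : ℤ)) (R.ρ + 1)).biUnion fun u =>
                ((R.Q S N).filter fun v => cf S.φ ω'' v ≠ cf S.φ ω' v).image (fun v => v - u)).card := by
                refine Finset.card_le_card fun p hp => ?_
                rw [Finset.mem_filter] at hp
                obtain ⟨hp1, u, hu, hne⟩ := hp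
                rw [Finset.mem_biUnion]
                refine ⟨u, hu, Finset.mem_image.2 ⟨u + p, ?_, by abel⟩⟩
                rw [Finset.mem_filter]
                refine ⟨?_, hne⟩
                rw [mem_box] at hp1 hu ⊢
                intro i
                have h3 := hp1 i
                have h4 := hu i
                simp only [Pi.add_apply]
                omega
            _ ≤ ∑ u ∈ box n (-(R.ρ : ℤ)) (R.ρ + 1),
                (((R.Q S N).filter fun v => cf S.φ ω'' v ≠ cf S.φ ω' v).image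
                  (fun v => v - u)).card := Finset.card_biUnion_le
            _ ≤ ∑ _u ∈ box n (-(R.ρ : ℤ)) (R.ρ + 1), dis (R.Q S N) (cf S.φ ω'') (cf S.φ ω') := by
                refine Finset.sum_le_sum fun u _ => ?_
                refine Finset.card_image_le.trans (le_of_eq ?_)
                unfold dis
                congr 1
            _ = _ := by rw [Finset.sum_const, smul_eq_mul]
        exact_mod_cast h2

lemma measurable_fail (N : ℕ) {p : Zn n} (hp : p ∈ box n 0 N) :
    Measurable fun ω' => S.P (failSet S R N ω' p) := by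
  refine measurable_of_agree S.hφ (R.Q S N) fun ω₁ ω₂ h => ?_
  have : failSet S R N ω₁ p = failSet S R N ω₂ p := by
    ext ω
    unfold failSet
    simp only [Set.mem_ofPred_eq]
    rw [sel_congr S h (agree_refl _ _)]
    refine exists_congr fun u => and_congr_right fun hu => ?_
    rw [h (u + p)]
    rw [mem_box] at hu hp ⊢
    intro i
    have h3 := hp i
    have h4 := hu i
    simp only [Pi.add_apply]
    omega
  rw [this]

lemma measurable_A (c : Cubes n Y N) (ν : Measure Y) {g : Y → L} :
    Measurable fun ω' => ν {y | newg S R c ω' g y ≠ g y} := by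
  classical
  refine measurable_of_agree S.hφ (R.Q S N) fun ω₁ ω₂ h => ?_
  have : ∀ y, newg S R c ω₁ g y = newg S R c ω₂ g y := by
    intro y
    unfold newg
    split_ifs with hy
    · refine R.loc _ _ _ fun u hu => ?_
      rw [sh_apply, sh_apply]
      refine h _ ?_
      have h2 := c.pos_mem y
      rw [mem_box] at hu h2 ⊢
      intro i
      have h3 := h2 i
      have h4 := hu i
      simp only [Pi.add_apply]
      omega
    · rfl
  simp only [this]

lemma card_zone_le (n r : ℕ) {δ : ℝ} (hδ : 0 < δ) : ∃ N1 : ℕ, ∀ N : ℕ, N1 ≤ N →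
    ((box n 0 N \ box n (r : ℤ) (N - r)).card : ℝ) ≤ δ * (N : ℝ) ^ n := by
  classical
  have hl1 := tendsto_ratio (0 : ℝ) n
  have hl3 := tendsto_ratio (-(2 * (r : ℝ))) n
  have hlim := hl1.sub hl3
  rw [sub_self] at hlim
  have hev := hlim.eventually (gt_mem_nhds hδ)
  obtain ⟨N1, hN1⟩ := Filter.eventually_atTop.1 hev
  refine ⟨max N1 (2 * r + 1), fun N hN => ?_⟩
  have hN1' := hN1 N (le_trans (le_max_left _ _) hN)
  have hNw : 2 * r + 1 ≤ N := le_trans (le_max_right _ _) hN
  have hNpos : (0 : ℝ) < N := by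
    have : 0 < N := by omega
    exact_mod_cast this
  have hNn : (0 : ℝ) < (N : ℝ) ^ n := by positivity
  have hsub : box n (r : ℤ) (N - r) ⊆ box n 0 N := by
    intro v hv
    rw [mem_box] at hv ⊢
    intro i
    have := hv i
    omega
  have h1 := Finset.card_sdiff_add_card_eq_card hsub
  have h2 : (box n (r : ℤ) (N - r)).card = (N - 2 * r) ^ n := by
    rw [card_box]
    congr 1
    omega
  have h2' : (box n 0 (N : ℤ)).card = N ^ n := by
    rw [card_box]
    congr 1
  rw [h2, h2'] at h1
  have h3 : ((box n 0 N \ box n (r : ℤ) (N - r)).card : ℝ) + ((N : ℝ) - 2 * r) ^ n = (N : ℝ) ^ n := by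
    have h4 : (((box n 0 N \ box n (r : ℤ) (N - r)).card + (N - 2 * r) ^ n : ℕ) : ℝ) =
        ((N ^ n : ℕ) : ℝ) := by rw [h1]
    push_cast at h4
    rw [Nat.cast_sub (by omega)] at h4
    push_cast at h4
    exact h4
  have h5 : (((N : ℝ) + 0) ^ n / (N : ℝ) ^ n - ((N : ℝ) + -(2 * (r : ℝ))) ^ n / (N : ℝ) ^ n) *
      (N : ℝ) ^ n = (N : ℝ) ^ n - ((N : ℝ) - 2 * r) ^ n := by
    rw [add_zero]
    field_simp
    ring
  have h6 := mul_le_mul_of_nonneg_right hN1'.le hNn.le
  rw [h5] at h6
  linarith

/-- One step of the construction. -/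
theorem step [StandardBorelSpace Y] (hn : 0 < n)
    (hmeas : ∀ v : Zn n, Measurable fun y : Y => v +ᵥ y)
    (hfree : ∀ (v : Zn n) (y : Y), v +ᵥ y = y → v = 0) (ν : Measure Y) [IsProbabilityMeasure ν]
    (R : Rule S Y) {g : Y → L} (hg : Measurable g) {ε : ENNReal} (hε : 0 < ε) (hεt : ε ≠ ⊤) :
    ∃ (R' : Rule S Y) (g' : Y → L), Measurable g' ∧ Err S ν R' g' ≤ ε ∧
      ν {y | ¬ S.ok (fun v => g' (v +ᵥ y))} ≤ ε ∧
      ν {y | g' y ≠ g y} ≤ 4 * Err S ν R g + ε := by
  classical
  have hεr : 0 < ε.toReal := ENNReal.toReal_pos hε.ne' hεt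
  set b : ℕ := (box n (-(R.ρ : ℤ)) (R.ρ + 1)).card with hb
  set η : ℝ := ε.toReal / (8 * (b + 1)) with hηdef
  have hη : 0 < η := by positivity
  have hbη : b * η ≤ ε.toReal / 8 := by
    calc (b : ℝ) * η ≤ (b + 1) * η := by gcongr; linarith
      _ = ε.toReal / 8 := by rw [hηdef]; field_simp
  obtain ⟨N0, hN0⟩ := exists_N0 S.lam S.hφ S.hO S.hO0 hn R.ρ (R.ρ + 2 * S.r) hη
  obtain ⟨N1, hN1⟩ := card_zone_le n S.r (δ := ε.toReal / 8) (by positivity)
  set N : ℕ := max (max N0 N1) 1 with hNdef
  have hNN0 : N0 ≤ N := le_trans (le_max_left _ _) (le_max_left _ _)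
  have hNN1 : N1 ≤ N := le_trans (le_max_right _ _) (le_max_left _ _)
  have hNpos : 0 < N := lt_of_lt_of_le one_pos (le_max_right _ _)
  have hdd := hN0 N hNN0
  have hzone := hN1 N hNN1
  have hε8 : 0 < ε / 8 := ENNReal.div_pos hε.ne' (by norm_num)
  obtain ⟨c, hc1, hc2⟩ := exists_cubes hmeas hfree ν hNpos hε8
  set X : ENNReal := ((box n 0 (N : ℤ)).card : ENNReal) with hX
  have hXN : X = ENNReal.ofReal ((N : ℝ) ^ n) := by
    rw [hX, card_box, ENNReal.ofReal_pow (Nat.cast_nonneg _), ENNReal.ofReal_natCast]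
    have : ((N : ℤ) - 0).toNat = N := by omega
    rw [this]
    push_cast
    rfl
  have hX0 : X ≠ 0 := by
    rw [hXN]
    simp only [ne_eq, ENNReal.ofReal_eq_zero, not_le]
    positivity
  have hXt : X ≠ ⊤ := by rw [hX]; exact ENNReal.natCast_ne_top _
  -- positions
  have hposm : ∀ t p, MeasurableSet {y | (c t).pos y = p} := fun t p =>
    (c t).pos_meas (measurableSet_singleton p)
  have hpos1 : ∀ p, ∑ t ∈ box n 0 N, ν {y | (c t).pos y = p} ≤ 1 := by
    intro p
    calc ∑ t ∈ box n 0 N, ν {y | (c t).pos y = p}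
        = ∫⁻ y, ∑ t ∈ box n 0 N, ({y | (c t).pos y = p} : Set Y).indicator 1 y ∂ν := by
          rw [lintegral_finsetSum _ fun t _ => measurable_one.indicator (hposm t p)]
          refine Finset.sum_congr rfl fun t _ => ?_
          rw [lintegral_indicator_one (hposm t p)]
      _ ≤ ∫⁻ _y, 1 ∂ν := by
          refine lintegral_mono fun y => ?_
          have h1 : ∑ t ∈ box n 0 N, ({y | (c t).pos y = p} : Set Y).indicator (1 : Y → ENNReal) y =
              (((box n 0 N).filter fun t => (c t).pos y = p).card : ENNReal) := by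
            rw [Finset.card_filter]
            push_cast
            refine Finset.sum_congr rfl fun t _ => ?_
            by_cases h : (c t).pos y = p
            · rw [Set.indicator_of_mem (by exact h), if_pos h]; rfl
            · rw [Set.indicator_of_notMem (by exact h), if_neg h]
          rw [h1]
          have h2 : ((box n 0 N).filter fun t => (c t).pos y = p).card ≤ 1 := by
            rw [Finset.card_le_one]
            intro t ht t' ht'
            rw [Finset.mem_filter] at ht ht'
            exact hc2 y t ht.1 t' ht'.1 (ht.2.trans ht'.2.symm)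
          calc (((box n 0 (N : ℤ)).filter fun t => (c t).pos y = p).card : ENNReal)
              ≤ ((1 : ℕ) : ENNReal) := Nat.cast_le.2 h2
            _ = 1 := Nat.cast_one
      _ = 1 := by rw [lintegral_const, measure_univ, mul_one]
  -- the uncovered or boundary part
  let u : Zn n → ENNReal := fun t => ν (c t).keptᶜ +
    ν {y | (c t).pos y ∉ box n (S.r : ℤ) (N - S.r)}
  have hu : ∑ t ∈ box n 0 N, u t ≤ X * (ε / 4) := by
    have h1 : ∑ t ∈ box n 0 N, ν (c t).keptᶜ ≤ X * (ε / 8) := by
      calc ∑ t ∈ box n 0 N, ν (c t).keptᶜ ≤ ∑ _t ∈ box n 0 (N : ℤ), ε / 8 :=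
            Finset.sum_le_sum fun t _ => hc1 t
        _ = X * (ε / 8) := by rw [Finset.sum_const, nsmul_eq_mul]
    have h2 : ∑ t ∈ box n 0 N, ν {y | (c t).pos y ∉ box n (S.r : ℤ) (N - S.r)} ≤ X * (ε / 8) := by
      calc ∑ t ∈ box n 0 N, ν {y | (c t).pos y ∉ box n (S.r : ℤ) (N - S.r)}
          ≤ ∑ t ∈ box n 0 N, ∑ p ∈ box n 0 N \ box n (S.r : ℤ) (N - S.r),
              ν {y | (c t).pos y = p} := by
            refine Finset.sum_le_sum fun t _ => ?_
            refine le_trans (measure_mono ?_) (measure_biUnion_finset_le _ _)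
            intro y hy
            rw [Set.mem_iUnion₂]
            exact ⟨(c t).pos y, Finset.mem_sdiff.2 ⟨(c t).pos_mem y, hy⟩, rfl⟩
        _ = ∑ p ∈ box n 0 N \ box n (S.r : ℤ) (N - S.r), ∑ t ∈ box n 0 N,
              ν {y | (c t).pos y = p} := Finset.sum_comm
        _ ≤ ∑ _p ∈ box n 0 (N : ℤ) \ box n (S.r : ℤ) (N - S.r), (1 : ENNReal) :=
            Finset.sum_le_sum fun p _ => hpos1 p
        _ = ENNReal.ofReal ((box n 0 (N : ℤ) \ box n (S.r : ℤ) (N - S.r)).card : ℝ) := by
            rw [Finset.sum_const, nsmul_eq_mul, mul_one, ENNReal.ofReal_natCast]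
        _ ≤ ENNReal.ofReal (ε.toReal / 8 * (N : ℝ) ^ n) := ENNReal.ofReal_le_ofReal hzone
        _ = X * (ε / 8) := by
            rw [ENNReal.ofReal_mul (by positivity), ← hXN, ENNReal.ofReal_div_of_pos (by norm_num),
              ENNReal.ofReal_toReal hεt, mul_comm]
            norm_num
    calc ∑ t ∈ box n 0 N, u t = ∑ t ∈ box n 0 N, ν (c t).keptᶜ +
          ∑ t ∈ box n 0 N, ν {y | (c t).pos y ∉ box n (S.r : ℤ) (N - S.r)} :=
          Finset.sum_add_distrib
      _ ≤ X * (ε / 8) + X * (ε / 8) := add_le_add h1 h2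
      _ = X * (ε / 4) := by
          rw [← mul_add]
          congr 1
          rw [← two_mul, div_eq_mul_inv, div_eq_mul_inv, ← mul_assoc, mul_comm 2 ε, mul_assoc]
          congr 1
          rw [show (8 : ENNReal) = 2 * 4 by norm_num, ENNReal.mul_inv (by simp) (by simp),
            ← mul_assoc, ENNReal.mul_inv_cancel (by simp) (by simp), one_mul]
  -- suppose the step fails
  by_contra hcon
  push Not at hcon
  set a : ENNReal := 4 * Err S ν R g + ε with ha
  have hErr1 : Err S ν R g ≤ 1 := by
    calc Err S ν R g ≤ ∫⁻ _y, 1 ∂ν := lintegral_mono fun y => prob_le_one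
      _ = 1 := by rw [lintegral_const, measure_univ, mul_one]
  have ha0 : a ≠ 0 := by
    intro h
    rw [ha, add_eq_zero] at h
    exact hε.ne' h.2
  have hat : a ≠ ⊤ := by
    rw [ha]
    refine ENNReal.add_ne_top.2 ⟨ENNReal.mul_ne_top (by norm_num) ?_, hεt⟩
    exact ne_top_of_le_ne_top ENNReal.one_ne_top hErr1
  let A : Zn n → (Zn n → I) → ENNReal := fun t ω' => ν {y | newg S R (c t) ω' g y ≠ g y}
  let E : Zn n → (Zn n → I) → ENNReal := fun t ω' => ν (c t).keptᶜ +
      ∑ p ∈ box n 0 N, ν {y | (c t).pos y = p} * S.P (failSet S R N ω' p)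
  have hpt : ∀ t, ∀ ω' ∈ S.O, 1 ≤ A t ω' / a + (E t ω' / ε + u t / ε) := by
    intro t ω' hω'
    have h0 := hcon (newRule S R (c t) ω') (newg S R (c t) ω' g) (newg_meas S R (c t) ω' hg)
    by_cases h1 : Err S ν (newRule S R (c t) ω') (newg S R (c t) ω' g) ≤ ε
    · by_cases h2 : ν {y | ¬ S.ok (fun v => newg S R (c t) ω' g (v +ᵥ y))} ≤ ε
      · have h3 := h0 h1 h2
        calc (1 : ENNReal) = a / a := (ENNReal.div_self ha0 hat).symm
          _ ≤ A t ω' / a := ENNReal.div_le_div_right h3.le a
          _ ≤ _ := le_self_add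
      · have h3 : ν {y | ¬ S.ok (fun v => newg S R (c t) ω' g (v +ᵥ y))} ≤ u t := by
          refine le_trans (measure_mono ?_) (measure_union_le _ _)
          intro y hy
          by_contra hcon'
          rw [Set.mem_union, not_or] at hcon'
          have h4 : y ∈ (c t).kept := by simpa using hcon'.1
          have h5 : (c t).pos y ∈ box n (S.r : ℤ) (N - S.r) := by simpa using hcon'.2
          exact hy (newg_ok S R (c t) ω' g hω' h4 h5)
        calc (1 : ENNReal) = ε / ε := (ENNReal.div_self hε.ne' hεt).symm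
          _ ≤ u t / ε := ENNReal.div_le_div_right ((not_le.1 h2).le.trans h3) ε
          _ ≤ E t ω' / ε + u t / ε := le_add_self
          _ ≤ _ := le_add_self
    · calc (1 : ENNReal) = ε / ε := (ENNReal.div_self hε.ne' hεt).symm
        _ ≤ E t ω' / ε := ENNReal.div_le_div_right
            ((not_le.1 h1).le.trans (E_bound S R (c t) ν ω')) ε
        _ ≤ E t ω' / ε + u t / ε := le_self_add
        _ ≤ _ := le_add_self
  -- sum over the offsets
  have hsumE : ∀ ω', ∑ t ∈ box n 0 N, E t ω' ≤ X * (ε / 8) +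
      ∑ p ∈ box n 0 N, S.P (failSet S R N ω' p) := by
    intro ω'
    calc ∑ t ∈ box n 0 N, E t ω' = ∑ t ∈ box n 0 N, ν (c t).keptᶜ + ∑ t ∈ box n 0 N,
          ∑ p ∈ box n 0 N, ν {y | (c t).pos y = p} * S.P (failSet S R N ω' p) :=
          Finset.sum_add_distrib
      _ ≤ X * (ε / 8) + ∑ p ∈ box n 0 N, S.P (failSet S R N ω' p) := by
          refine add_le_add ?_ ?_
          · calc ∑ t ∈ box n 0 N, ν (c t).keptᶜ ≤ ∑ _t ∈ box n 0 (N : ℤ), ε / 8 :=
                Finset.sum_le_sum fun t _ => hc1 t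
              _ = X * (ε / 8) := by rw [Finset.sum_const, nsmul_eq_mul]
          · rw [Finset.sum_comm]
            refine Finset.sum_le_sum fun p _ => ?_
            rw [← Finset.sum_mul]
            calc _ ≤ 1 * S.P (failSet S R N ω' p) := by
                  gcongr
                  exact hpos1 p
              _ = _ := one_mul _
  have hpt2 : ∀ ω' ∈ S.O, X ≤ (∑ t ∈ box n 0 N, A t ω') / a +
      ((X * (ε / 8) + ∑ p ∈ box n 0 N, S.P (failSet S R N ω' p)) / ε + X * (ε / 4) / ε) := by
    intro ω' hω'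
    calc X = ∑ _t ∈ box n 0 (N : ℤ), (1 : ENNReal) := by
          rw [Finset.sum_const, nsmul_eq_mul, mul_one]
      _ ≤ ∑ t ∈ box n 0 N, (A t ω' / a + (E t ω' / ε + u t / ε)) :=
          Finset.sum_le_sum fun t _ => hpt t ω' hω'
      _ = (∑ t ∈ box n 0 N, A t ω') / a + ((∑ t ∈ box n 0 N, E t ω') / ε +
            (∑ t ∈ box n 0 N, u t) / ε) := by
          simp only [div_eq_mul_inv, Finset.sum_add_distrib, Finset.sum_mul]
      _ ≤ _ := by
          refine add_le_add le_rfl (add_le_add ?_ ?_)
          · exact ENNReal.div_le_div_right (hsumE ω') ε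
          · exact ENNReal.div_le_div_right hu ε
  -- integrate
  have hAm : ∀ t ∈ box n 0 (N : ℤ), Measurable (A t) := fun t _ => measurable_A S R (c t) ν
  have hAi : ∫⁻ ω', ∑ t ∈ box n 0 N, A t ω' ∂S.P ≤ X * Err S ν R g := by
    rw [lintegral_finsetSum _ hAm]
    calc ∑ t ∈ box n 0 N, ∫⁻ ω', A t ω' ∂S.P ≤ ∑ _t ∈ box n 0 (N : ℤ), Err S ν R g :=
          Finset.sum_le_sum fun t _ => A_bound S R (c t) ν hg
      _ = _ := by rw [Finset.sum_const, nsmul_eq_mul]
  have hFm : ∀ p ∈ box n 0 (N : ℤ), Measurable fun ω' => S.P (failSet S R N ω' p) :=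
    fun p hp => measurable_fail S R N hp
  have hFi : ∫⁻ ω', ∑ p ∈ box n 0 N, S.P (failSet S R N ω' p) ∂S.P ≤ X * (ε / 8) := by
    calc ∫⁻ ω', ∑ p ∈ box n 0 N, S.P (failSet S R N ω' p) ∂S.P
        ≤ ∫⁻ ω', ((b : ENNReal) *
            ∫⁻ ω, (dd S.φ S.O (R.Z S N) (R.Q S N) ω' ω : ENNReal) ∂S.P) ∂S.P :=
          lintegral_mono fun ω' => fail_sum S R N ω'
      _ = (b : ENNReal) * ∫⁻ ω', ∫⁻ ω, (dd S.φ S.O (R.Z S N) (R.Q S N) ω' ω : ENNReal)
            ∂S.P ∂S.P := lintegral_const_mul' _ _ (ENNReal.natCast_ne_top _)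
      _ ≤ (b : ENNReal) * ENNReal.ofReal (η * (N : ℝ) ^ n) := by
          gcongr
      _ = ENNReal.ofReal (b * η * (N : ℝ) ^ n) := by
          rw [← ENNReal.ofReal_natCast, ← ENNReal.ofReal_mul (Nat.cast_nonneg _), mul_assoc]
      _ ≤ ENNReal.ofReal (ε.toReal / 8 * (N : ℝ) ^ n) := by
          refine ENNReal.ofReal_le_ofReal ?_
          gcongr
      _ = X * (ε / 8) := by
          rw [ENNReal.ofReal_mul (by positivity), ← hXN, ENNReal.ofReal_div_of_pos (by norm_num),
            ENNReal.ofReal_toReal hεt, mul_comm]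
          norm_num
  have hOae : ∀ᵐ ω' ∂S.P, ω' ∈ S.O := by
    rw [ae_iff]; exact S.hO0
  have hfin : X ≤ X * Err S ν R g / a + ((X * (ε / 8) + X * (ε / 8)) / ε + X * (ε / 4) / ε) := by
    calc X = ∫⁻ _ω', X ∂S.P := by rw [lintegral_const, measure_univ, mul_one]
      _ ≤ ∫⁻ ω', ((∑ t ∈ box n 0 N, A t ω') / a +
          ((X * (ε / 8) + ∑ p ∈ box n 0 N, S.P (failSet S R N ω' p)) / ε + X * (ε / 4) / ε)) ∂S.P := by
          refine lintegral_mono_ae ?_
          filter_upwards [hOae] with ω' hω'
          exact hpt2 ω' hω'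
      _ = (∫⁻ ω', ∑ t ∈ box n 0 N, A t ω' ∂S.P) / a +
          ((X * (ε / 8) + ∫⁻ ω', ∑ p ∈ box n 0 N, S.P (failSet S R N ω' p) ∂S.P) / ε +
            X * (ε / 4) / ε) := by
          have hAm' : Measurable fun ω' => ∑ t ∈ box n 0 (N : ℤ), A t ω' :=
            Finset.measurable_fun_sum _ hAm
          have hFm' : Measurable fun ω' => ∑ p ∈ box n 0 (N : ℤ), S.P (failSet S R N ω' p) :=
            Finset.measurable_fun_sum _ hFm
          simp only [div_eq_mul_inv]
          rw [lintegral_add_left (hAm'.mul_const _), lintegral_add_right _ measurable_const,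
            lintegral_mul_const _ hAm', lintegral_mul_const _ (hFm'.const_add _),
            lintegral_add_left measurable_const]
          simp only [lintegral_const, measure_univ, mul_one]
      _ ≤ _ := by
          refine add_le_add (ENNReal.div_le_div_right hAi a) (add_le_add ?_ le_rfl)
          exact ENNReal.div_le_div_right (add_le_add le_rfl hFi) ε
  have hq1 : X * Err S ν R g / a ≤ X / 4 := by
    refine ENNReal.div_le_of_le_mul ?_
    rw [ENNReal.div_eq_inv_mul, mul_comm (4 : ENNReal)⁻¹ X, mul_assoc]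
    gcongr
    calc Err S ν R g = 4⁻¹ * (4 * Err S ν R g) := by
          rw [← mul_assoc, ENNReal.inv_mul_cancel (by norm_num) (by norm_num), one_mul]
      _ ≤ 4⁻¹ * a := by
          gcongr
          rw [ha]
          exact le_self_add
  have hq2 : X * (ε / 4) / ε = X / 4 := by
    simp only [div_eq_mul_inv]
    rw [mul_comm ε 4⁻¹, mul_assoc, mul_assoc, ENNReal.mul_inv_cancel hε.ne' hεt, mul_one]
  have hq3 : (X * (ε / 8) + X * (ε / 8)) / ε = X / 4 := by
    rw [← mul_add, ← hq2]
    congr 2
    rw [← two_mul, div_eq_mul_inv, div_eq_mul_inv, ← mul_assoc, mul_comm 2 ε, mul_assoc]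
    congr 1
    rw [show (8 : ENNReal) = 2 * 4 by norm_num, ENNReal.mul_inv (by simp) (by simp),
      ← mul_assoc, ENNReal.mul_inv_cancel (by simp) (by simp), one_mul]
  rw [hq2, hq3] at hfin
  have h4 : X ≤ X / 4 + (X / 4 + X / 4) := hfin.trans (add_le_add hq1 le_rfl)
  have hXr : 0 < X.toReal := ENNReal.toReal_pos hX0 hXt
  have h5 : X.toReal ≤ X.toReal / 4 + (X.toReal / 4 + X.toReal / 4) := by
    have hX4 : X / 4 ≠ ⊤ := ENNReal.div_ne_top hXt (by norm_num)
    have h6 := ENNReal.toReal_mono (ENNReal.add_ne_top.2 ⟨hX4, ENNReal.add_ne_top.2 ⟨hX4, hX4⟩⟩) h4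
    rw [ENNReal.toReal_add hX4 (ENNReal.add_ne_top.2 ⟨hX4, hX4⟩), ENNReal.toReal_add hX4 hX4,
      ENNReal.toReal_div] at h6
    simpa using h6
  linarith

end

end MPdc4ce7
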